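import Mathlib

set_option autoImplicit false

namespace Pool.Agent.H.MP_02f3ba_co.h16

open Finset

/-- The sign of `t` in `S`. -/
noncomputable def chi (t : ℕ) (S : Finset ℕ) : ℝ := if t ∈ S then 1 else -1

theorem chi_sq (t : ℕ) (S : Finset ℕ) : chi t S * chi t S = 1 := by
  unfold chi
  split_ifs <;> norm_num

theorem chi_orth {T : Finset ℕ} {s t : ℕ} (ht : t ∈ T) (hst : s ≠ t) :
    ∑ S ∈ T.powerset, chi s S * chi t S = 0 := by
  refine Finset.sum_involution (fun S _ => symmDiff S {t}) ?_ ?_ ?_ ?_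
  · intro S _
    have h1 : chi s (symmDiff S {t}) = chi s S := by
      unfold chi
      have : s ∈ symmDiff S {t} ↔ s ∈ S := by
        rw [Finset.mem_symmDiff, mem_singleton]
        constructor
        · rintro (h | h)
          · exact h.1
          · exact absurd h.1 hst
        · intro h
          exact Or.inl ⟨h, hst⟩
      simp only [this]
    have h2 : chi t (symmDiff S {t}) = - chi t S := by
      unfold chi
      by_cases h : t ∈ S
      · have : t ∉ symmDiff S {t} := by
          rw [Finset.mem_symmDiff, mem_singleton]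
          tauto
        rw [if_neg this, if_pos h]
      · have : t ∈ symmDiff S {t} := by
          rw [Finset.mem_symmDiff, mem_singleton]
          tauto
        rw [if_pos this, if_neg h, neg_neg]
    rw [h1, h2]
    ring
  · intro S _ _ h
    have h2 : t ∈ symmDiff S {t} ↔ t ∉ S := by
      rw [Finset.mem_symmDiff, mem_singleton]
      tauto
    rw [h] at h2
    tauto
  · intro S hS
    rw [mem_powerset] at hS ⊢
    intro x hx
    rw [Finset.mem_symmDiff, mem_singleton] at hx
    rcases hx with h | h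
    · exact hS h.1
    · rw [h.1]; exact ht
  · intro S _
    ext x
    simp only [Finset.mem_symmDiff, mem_singleton]
    tauto

/-- Bessel's inequality for the sign characters. -/
theorem bessel (T : Finset ℕ) (g : Finset ℕ → ℝ) :
    ∑ t ∈ T, (∑ S ∈ T.powerset, g S * chi t S) ^ 2 ≤
      2 ^ T.card * ∑ S ∈ T.powerset, g S ^ 2 := by
  set n : ℝ := 2 ^ T.card with hn
  have hn0 : 0 < n := by positivity
  set c : ℕ → ℝ := fun t => ∑ S ∈ T.powerset, g S * chi t S with hc
  have h1 : 0 ≤ ∑ S ∈ T.powerset, (n * g S - ∑ t ∈ T, c t * chi t S) ^ 2 :=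
    Finset.sum_nonneg fun S _ => sq_nonneg _
  have h2 : ∑ S ∈ T.powerset, (n * g S - ∑ t ∈ T, c t * chi t S) ^ 2 =
      n ^ 2 * ∑ S ∈ T.powerset, g S ^ 2 -
        2 * n * ∑ S ∈ T.powerset, g S * ∑ t ∈ T, c t * chi t S +
        ∑ S ∈ T.powerset, (∑ t ∈ T, c t * chi t S) ^ 2 := by
    rw [Finset.mul_sum, Finset.mul_sum, ← Finset.sum_sub_distrib, ← Finset.sum_add_distrib]
    refine Finset.sum_congr rfl fun S _ => ?_
    ring
  have h3 : ∑ S ∈ T.powerset, g S * ∑ t ∈ T, c t * chi t S = ∑ t ∈ T, c t ^ 2 := by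
    simp_rw [Finset.mul_sum]
    rw [Finset.sum_comm]
    refine Finset.sum_congr rfl fun t _ => ?_
    rw [sq]
    conv_rhs => rw [hc]
    simp only
    rw [Finset.sum_mul]
    refine Finset.sum_congr rfl fun S _ => ?_
    ring
  have h4 : ∑ S ∈ T.powerset, (∑ t ∈ T, c t * chi t S) ^ 2 = n * ∑ t ∈ T, c t ^ 2 := by
    have h5 : ∀ S : Finset ℕ, (∑ t ∈ T, c t * chi t S) ^ 2 =
        ∑ s ∈ T, ∑ t ∈ T, c s * c t * (chi s S * chi t S) := by
      intro S
      rw [sq, Finset.sum_mul_sum]
      refine Finset.sum_congr rfl fun s _ => Finset.sum_congr rfl fun t _ => ?_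
      ring
    simp_rw [h5]
    rw [Finset.sum_comm, Finset.mul_sum]
    refine Finset.sum_congr rfl fun s hs => ?_
    rw [Finset.sum_comm]
    have h6 : ∀ t ∈ T, ∑ S ∈ T.powerset, c s * c t * (chi s S * chi t S) =
        if s = t then n * c s ^ 2 else 0 := by
      intro t ht
      rw [← Finset.mul_sum]
      split_ifs with h
      · subst h
        have : ∀ S ∈ T.powerset, chi s S * chi s S = 1 := fun S _ => chi_sq s S
        rw [Finset.sum_congr rfl this, Finset.sum_const, card_powerset, nsmul_eq_mul, mul_one]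
        push_cast
        rw [hn]
        ring
      · rw [chi_orth ht h, mul_zero]
    rw [Finset.sum_congr rfl h6, Finset.sum_ite_eq, if_pos hs]
  rw [h2, h3, h4] at h1
  have h5 : 0 ≤ n * (n * ∑ S ∈ T.powerset, g S ^ 2 - ∑ t ∈ T, c t ^ 2) := by
    nlinarith
  have h6 := nonneg_of_mul_nonneg_right h5 hn0
  linarith

end Pool.Agent.H.MP_02f3ba_co.h16
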