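import Mathlib

set_option autoImplicit false

namespace Pool.Agent.H.MP_02f3ba_co.h16

open Finset

/-- Reduced residues modulo `d`. -/
def red (d : ℕ) : Finset ℕ := (range d).filter (fun a => d.Coprime a)

theorem card_red (d : ℕ) : (red d).card = d.totient := rfl

/-- The half open interval of radius `r` around `a Q / d`. -/
def ivl (Q d r a : ℕ) : Finset ℕ := Ico (a * (Q / d) - r) (a * (Q / d) + r)

/-- The union of the intervals of radius `r` around the reduced fractions with denominator `d`. -/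
def arc (Q d r : ℕ) : Finset ℕ := (red d).biUnion (ivl Q d r)

theorem red_pos {d a : ℕ} (hd : 2 ≤ d) (ha : a ∈ red d) : 1 ≤ a := by
  unfold red at ha
  rw [mem_filter, mem_range] at ha
  rcases Nat.eq_zero_or_pos a with h | h
  · subst h
    have := ha.2
    rw [Nat.coprime_zero_right] at this
    omega
  · exact h

theorem red_lt {d a : ℕ} (ha : a ∈ red d) : a < d := by
  unfold red at ha
  rw [mem_filter, mem_range] at ha
  exact ha.1

theorem arc_subset {Q d r : ℕ} (hd : 2 ≤ d) (hdQ : d ∣ Q) (hr : 2 * r ≤ Q / d) :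
    arc Q d r ⊆ range Q := by
  intro j hj
  unfold arc ivl at hj
  rw [mem_biUnion] at hj
  obtain ⟨a, ha, hj⟩ := hj
  rw [mem_Ico] at hj
  rw [mem_range]
  have h1 := red_lt ha
  obtain ⟨c, rfl⟩ := hdQ
  rw [Nat.mul_div_cancel_left c (by omega)] at hj hr
  have h2 : (a + 1) * c ≤ d * c := Nat.mul_le_mul_right c h1
  have h3 : (a + 1) * c = a * c + c := by ring
  omega

theorem card_ivl {Q d r a : ℕ} (hd : 2 ≤ d) (ha : a ∈ red d) (hr : 2 * r ≤ Q / d) :
    (ivl Q d r a).card = 2 * r := by
  unfold ivl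
  rw [Nat.card_Ico]
  have h1 := red_pos hd ha
  have h2 : Q / d ≤ a * (Q / d) := Nat.le_mul_of_pos_left _ h1
  omega

theorem card_arc {Q d r : ℕ} (hd : 2 ≤ d) (hr : 2 * r ≤ Q / d) :
    (arc Q d r).card = 2 * r * d.totient := by
  unfold arc
  rw [card_biUnion]
  · rw [Finset.sum_congr rfl fun a ha => card_ivl hd ha hr]
    rw [Finset.sum_const, card_red]
    simp [mul_comm]
  · intro a _ b _ hab
    unfold ivl
    rw [Function.onFun, Finset.disjoint_left]
    intro j hj hj'
    rw [mem_Ico] at hj hj'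
    rcases Nat.lt_or_gt_of_ne hab with h | h
    · have h2 : (a + 1) * (Q / d) ≤ b * (Q / d) := Nat.mul_le_mul_right _ h
      have h3 : (a + 1) * (Q / d) = a * (Q / d) + Q / d := by ring
      omega
    · have h2 : (b + 1) * (Q / d) ≤ a * (Q / d) := Nat.mul_le_mul_right _ h
      have h3 : (b + 1) * (Q / d) = b * (Q / d) + Q / d := by ring
      omega

/-- Pairs of reduced fractions at distance less than `x / (d d')`. -/
theorem pair_count {d d' : ℕ} (hd : 0 < d) (hd' : 0 < d') (hne : d ≠ d') {x : ℝ} (hx : 0 ≤ x) :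
    ((((red d) ×ˢ (red d')).filter
      (fun p : ℕ × ℕ => |((p.1 * d' : ℤ) - p.2 * d : ℤ)| < x)).card : ℝ) ≤ 2 * x := by
  set g := Nat.gcd d d' with hg
  have hgpos : 0 < g := Nat.gcd_pos_of_pos_left _ hd
  obtain ⟨e, he⟩ : g ∣ d := Nat.gcd_dvd_left d d'
  obtain ⟨e', he'⟩ : g ∣ d' := Nat.gcd_dvd_right d d'
  have hcop : Nat.Coprime e e' := by
    have h1 : g = g * Nat.gcd e e' := by
      rw [← Nat.gcd_mul_left, ← he, ← he']
    have h2 : Nat.gcd e e' = 1 := by
      have h3 : g * 1 = g * Nat.gcd e e' := by omega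
      exact (Nat.eq_of_mul_eq_mul_left hgpos h3).symm
    exact h2
  have hepos : 0 < e := by
    rcases Nat.eq_zero_or_pos e with h | h
    · rw [h, mul_zero] at he; omega
    · exact h
  set S := ((red d) ×ˢ (red d')).filter
      (fun p : ℕ × ℕ => |((p.1 * d' : ℤ) - p.2 * d : ℤ)| < x) with hS
  let f : ℕ × ℕ → ℤ := fun p => (p.1 : ℤ) * e' - (p.2 : ℤ) * e
  have hf : ∀ p : ℕ × ℕ, ((p.1 : ℤ) * d' - p.2 * d) = g * f p := by
    intro p
    simp only [f]
    rw [he, he']
    push_cast
    ring
  have h1 : S.card ≤ g * (S.image f).card := by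
    refine Finset.card_le_mul_card_image S g fun z _ => ?_
    rw [← Finset.card_range g]
    refine Finset.card_le_card_of_injOn (fun p => p.1 / e) ?_ ?_
    · intro p hp
      rw [Finset.mem_coe, mem_filter, hS, mem_filter, mem_product] at hp
      rw [Finset.mem_coe, mem_range]
      have h3 := red_lt hp.1.1.1
      rw [he, mul_comm] at h3
      exact Nat.div_lt_of_lt_mul h3
    · intro p hp q hq hpq
      rw [Finset.mem_coe, mem_filter] at hp hq
      have h3 : f p = f q := hp.2.trans hq.2.symm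
      simp only [f] at h3
      have h4 : ((p.1 : ℤ) - q.1) * e' = ((p.2 : ℤ) - q.2) * e := by linarith
      have h5 : (e : ℤ) ∣ ((p.1 : ℤ) - q.1) := by
        have h6 : (e : ℤ) ∣ ((p.1 : ℤ) - q.1) * e' := by
          rw [h4]
          exact Dvd.intro_left _ rfl
        have h7 : IsCoprime (e : ℤ) (e' : ℤ) := Nat.isCoprime_iff_coprime.2 hcop
        exact h7.dvd_of_dvd_mul_right h6
      have h8 : p.1 ≡ q.1 [MOD e] := by
        have h9 : (q.1 : ℤ) ≡ p.1 [ZMOD e] := (Int.modEq_iff_dvd).2 h5
        exact ((Int.natCast_modEq_iff).1 h9).symm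
      have h10 : p.1 = q.1 := by
        have h11 : p.1 / e = q.1 / e := hpq
        have h12 : p.1 % e = q.1 % e := h8
        rw [← Nat.div_add_mod p.1 e, ← Nat.div_add_mod q.1 e, h11, h12]
      have h13 : p.2 = q.2 := by
        rw [h10] at h4
        simp only [sub_self, zero_mul] at h4
        have h14 : ((p.2 : ℤ) - q.2) = 0 := by
          rcases mul_eq_zero.1 h4.symm with h | h
          · exact h
          · have : (e : ℤ) ≠ 0 := by exact_mod_cast hepos.ne'
            exact absurd h this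
        have : (p.2 : ℤ) = q.2 := by linarith
        exact_mod_cast this
      exact Prod.ext h10 h13
  have h2 : ((S.image f).card : ℝ) ≤ 2 * (x / g) := by
    have hxg : 0 ≤ x / g := by positivity
    have h3 : S.image f ⊆ (Icc (-(⌊x / g⌋₊ : ℤ)) (⌊x / g⌋₊ : ℤ)).erase 0 := by
      intro z hz
      rw [mem_image] at hz
      obtain ⟨p, hp, rfl⟩ := hz
      rw [hS, mem_filter, mem_product] at hp
      rw [mem_erase, mem_Icc]
      constructor
      · intro h0
        have h4 : ((p.1 : ℤ) * d' - p.2 * d) = 0 := by rw [hf p, h0, mul_zero]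
        have h5 : p.1 * d' = p.2 * d := by
          have : (p.1 : ℤ) * d' = p.2 * d := by linarith
          exact_mod_cast this
        have hc1 : d.Coprime p.1 := by
          have := hp.1.1
          unfold red at this
          exact (mem_filter.1 this).2
        have hc2 : d'.Coprime p.2 := by
          have := hp.1.2
          unfold red at this
          exact (mem_filter.1 this).2
        have h6 : d ∣ d' := hc1.dvd_of_dvd_mul_left (h5 ▸ Dvd.intro_left _ rfl)
        have h7 : d' ∣ d := hc2.dvd_of_dvd_mul_left (h5 ▸ Dvd.intro_left _ rfl)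
        exact hne (Nat.dvd_antisymm h6 h7)
      · have h4 : |(f p : ℝ)| ≤ x / g := by
          have h5 := hp.2
          rw [hf p] at h5
          push_cast at h5
          rw [abs_mul, Nat.abs_cast] at h5
          rw [le_div_iff₀ (by exact_mod_cast hgpos)]
          linarith
        have h6 : (f p).natAbs ≤ ⌊x / g⌋₊ := by
          rw [Nat.le_floor_iff hxg]
          rw [Nat.cast_natAbs, Int.cast_abs]
          exact h4
        omega
    have h4 := Finset.card_le_card h3
    rw [card_erase_of_mem (by rw [mem_Icc]; omega), Int.card_Icc] at h4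
    have h5 : (S.image f).card ≤ 2 * ⌊x / g⌋₊ := by omega
    have h6 : ((S.image f).card : ℝ) ≤ 2 * (⌊x / g⌋₊ : ℝ) := by exact_mod_cast h5
    have h7 := Nat.floor_le hxg
    linarith
  have h3 : (S.card : ℝ) ≤ g * ((S.image f).card : ℝ) := by exact_mod_cast h1
  have hg0 : (0 : ℝ) < g := by exact_mod_cast hgpos
  calc (S.card : ℝ) ≤ g * ((S.image f).card : ℝ) := h3
    _ ≤ g * (2 * (x / g)) := by gcongr
    _ = 2 * x := by field_simp

theorem inter_card {Q d d' r r' : ℕ} (hd : 2 ≤ d) (hd' : 2 ≤ d') (hne : d ≠ d') (hQ : 0 < Q)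
    (hdQ : d ∣ Q) (hdQ' : d' ∣ Q) (hr' : 2 * r' ≤ Q / d') :
    (((arc Q d r) ∩ (arc Q d' r')).card : ℝ) ≤
      2 * r' * (2 * ((r + r') * (d * d') / Q)) := by
  have hx : (0 : ℝ) ≤ (r + r') * (d * d') / Q := by positivity
  have h0 := pair_count (d := d) (d' := d') (by omega) (by omega) hne hx
  set S := ((red d) ×ˢ (red d')).filter
      (fun p : ℕ × ℕ => |((p.1 * d' : ℤ) - p.2 * d : ℤ)| < ((r + r') * (d * d') / Q : ℝ)) with hS
  have h1 : (arc Q d r) ∩ (arc Q d' r') ⊆ S.biUnion (fun p => ivl Q d' r' p.2) := by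
    intro j hj
    rw [mem_inter] at hj
    unfold arc at hj
    rw [mem_biUnion, mem_biUnion] at hj
    obtain ⟨⟨a, ha, hja⟩, ⟨b, hb, hjb⟩⟩ := hj
    rw [mem_biUnion]
    refine ⟨(a, b), ?_, hjb⟩
    rw [hS, mem_filter, mem_product]
    refine ⟨⟨ha, hb⟩, ?_⟩
    unfold ivl at hja hjb
    rw [mem_Ico] at hja hjb
    obtain ⟨c, hc⟩ := hdQ
    obtain ⟨c', hc'⟩ := hdQ'
    have e1 : Q / d = c := by rw [hc]; exact Nat.mul_div_cancel_left c (by omega)
    have e2 : Q / d' = c' := by rw [hc']; exact Nat.mul_div_cancel_left c' (by omega)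
    rw [e1] at hja
    rw [e2] at hjb
    have h3 : |((a : ℝ) * c - b * c')| < r + r' := by
      have i1 : a * c ≤ j + r := by omega
      have i2 : j < a * c + r := hja.2
      have i3 : b * c' ≤ j + r' := by omega
      have i4 : j < b * c' + r' := hjb.2
      have j1 : (a : ℝ) * c ≤ j + r := by exact_mod_cast i1
      have j2 : (j : ℝ) < a * c + r := by exact_mod_cast i2
      have j3 : (b : ℝ) * c' ≤ j + r' := by exact_mod_cast i3
      have j4 : (j : ℝ) < b * c' + r' := by exact_mod_cast i4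
      rw [abs_lt]
      constructor <;> linarith
    have hQr : (0 : ℝ) < Q := by exact_mod_cast hQ
    have hdr : (0 : ℝ) < d := by exact_mod_cast (by omega : 0 < d)
    have hdr' : (0 : ℝ) < d' := by exact_mod_cast (by omega : 0 < d')
    have hcr : (Q : ℝ) = d * c := by exact_mod_cast hc
    have hcr' : (Q : ℝ) = d' * c' := by exact_mod_cast hc'
    push_cast
    have h4 : ((a : ℝ) * d' - b * d) = (a * c - b * c') * (d * d') / Q := by
      rw [eq_div_iff hQr.ne']
      have k1 : (a : ℝ) * d' * Q = a * d' * (d * c) := by rw [← hcr]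
      have k2 : (b : ℝ) * d * Q = b * d * (d' * c') := by rw [← hcr']
      rw [sub_mul, k1, k2]
      ring
    rw [h4, abs_div, abs_mul, abs_of_pos hQr, abs_of_pos (mul_pos hdr hdr')]
    gcongr
  have h2 : ((arc Q d r) ∩ (arc Q d' r')).card ≤ S.card * (2 * r') := by
    refine (Finset.card_le_card h1).trans ?_
    refine Finset.card_biUnion_le_card_mul _ _ _ fun p hp => ?_
    rw [hS, mem_filter, mem_product] at hp
    exact (card_ivl hd' hp.1.2 hr').le
  have h3 : (((arc Q d r) ∩ (arc Q d' r')).card : ℝ) ≤ S.card * (2 * r') := by exact_mod_cast h2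
  have hr0 : (0 : ℝ) ≤ 2 * r' := by positivity
  calc (((arc Q d r) ∩ (arc Q d' r')).card : ℝ) ≤ S.card * (2 * r') := h3
    _ ≤ (2 * ((r + r') * (d * d') / Q)) * (2 * r') := by gcongr
    _ = _ := by ring

end Pool.Agent.H.MP_02f3ba_co.h16
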