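import Mathlib

set_option autoImplicit false

namespace Pool.Agent.H.MP_02f3ba_co.h16

open Finset Polynomial

/-- The primitive `Q`-th root of unity `exp(2 pi i / Q)`. -/
noncomputable def zt (Q : ℕ) : ℂ := Complex.exp (2 * Real.pi * Complex.I / Q)

theorem zt_prim {Q : ℕ} (hQ : Q ≠ 0) : IsPrimitiveRoot (zt Q) Q :=
  Complex.isPrimitiveRoot_exp Q hQ

theorem zt_pow_eq (Q n : ℕ) : zt Q ^ n = Complex.exp (2 * Real.pi * Complex.I * n / Q) := by
  unfold zt
  rw [← Complex.exp_nat_mul]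
  congr 1
  ring

theorem norm_zt_pow (Q n : ℕ) : ‖zt Q ^ n‖ = 1 := by
  rw [zt_pow_eq]
  have : (2 * Real.pi * Complex.I * n / Q : ℂ) = ((2 * Real.pi * n / Q : ℝ) : ℂ) * Complex.I := by
    push_cast
    ring
  rw [this, Complex.norm_exp_ofReal_mul_I]

theorem conj_zt_pow (Q n : ℕ) : (starRingEnd ℂ) (zt Q ^ n) = (zt Q ^ n)⁻¹ := by
  rw [Complex.inv_def, Complex.normSq_eq_norm_sq, norm_zt_pow]
  simp

theorem orth {Q : ℕ} (hQ : Q ≠ 0) {n m : ℕ} (hn : n < Q) (hm : m < Q) :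
    ∑ j ∈ range Q, zt Q ^ (n * j) * (starRingEnd ℂ) (zt Q ^ (m * j)) =
      if n = m then (Q : ℂ) else 0 := by
  have h1 : ∀ j : ℕ, zt Q ^ (n * j) * (starRingEnd ℂ) (zt Q ^ (m * j)) =
      (zt Q ^ n * (zt Q ^ m)⁻¹) ^ j := by
    intro j
    rw [conj_zt_pow, mul_pow, pow_mul, pow_mul, inv_pow]
  simp_rw [h1]
  have hz : zt Q ^ m ≠ 0 := by
    intro h
    have := norm_zt_pow Q m
    rw [h] at this
    simp at this
  split_ifs with h
  · subst h
    rw [mul_inv_cancel₀ hz]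
    simp
  · have hx : zt Q ^ n * (zt Q ^ m)⁻¹ ≠ 1 := by
      intro h2
      have h3 : zt Q ^ n = zt Q ^ m := by
        rw [mul_inv_eq_one₀ hz] at h2
        exact h2
      exact h ((zt_prim hQ).pow_inj hn hm h3)
    have hxQ : (zt Q ^ n * (zt Q ^ m)⁻¹) ^ Q = 1 := by
      rw [mul_pow, inv_pow, ← pow_mul, ← pow_mul, mul_comm n Q, mul_comm m Q, pow_mul, pow_mul,
        (zt_prim hQ).pow_eq_one]
      simp
    have h4 := geom_sum_eq hx Q
    rw [h4, hxQ]
    simp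

theorem inversion {Q : ℕ} (hQ : Q ≠ 0) (P : ℂ[X]) (hP : P.natDegree < Q) {t : ℕ} (ht : t < Q) :
    ∑ j ∈ range Q, P.eval (zt Q ^ j) * (starRingEnd ℂ) (zt Q ^ (t * j)) = Q * P.coeff t := by
  have h1 : ∀ j : ℕ, P.eval (zt Q ^ j) = ∑ n ∈ range Q, P.coeff n * zt Q ^ (n * j) := by
    intro j
    rw [Polynomial.eval_eq_sum_range' hP]
    refine Finset.sum_congr rfl fun n _ => ?_
    rw [← pow_mul, mul_comm j n]
  simp_rw [h1, Finset.sum_mul]
  rw [Finset.sum_comm]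
  have h2 : ∀ n ∈ range Q, ∑ j ∈ range Q, P.coeff n * zt Q ^ (n * j) *
      (starRingEnd ℂ) (zt Q ^ (t * j)) = if n = t then (Q : ℂ) * P.coeff t else 0 := by
    intro n hn
    have h3 := orth hQ (Finset.mem_range.1 hn) ht
    simp_rw [mul_assoc]
    rw [← Finset.mul_sum, h3]
    split_ifs with h
    · rw [h]; ring
    · ring
  rw [Finset.sum_congr rfl h2, Finset.sum_ite_eq' (range Q) t, if_pos (Finset.mem_range.2 ht)]

theorem parseval {Q : ℕ} (hQ : Q ≠ 0) (P : ℂ[X]) (hP : P.natDegree < Q) :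
    ∑ j ∈ range Q, ‖P.eval (zt Q ^ j)‖ ^ 2 = Q * ∑ n ∈ range Q, ‖P.coeff n‖ ^ 2 := by
  have h0 : ∀ z : ℂ, ((‖z‖ ^ 2 : ℝ) : ℂ) = z * (starRingEnd ℂ) z := by
    intro z
    rw [Complex.mul_conj, Complex.normSq_eq_norm_sq]
  have h1 : ((∑ j ∈ range Q, ‖P.eval (zt Q ^ j)‖ ^ 2 : ℝ) : ℂ) =
      ((Q * ∑ n ∈ range Q, ‖P.coeff n‖ ^ 2 : ℝ) : ℂ) := by
    rw [Complex.ofReal_sum, Complex.ofReal_mul, Complex.ofReal_sum]
    simp_rw [h0]
    have h2 : ∀ j : ℕ, (starRingEnd ℂ) (P.eval (zt Q ^ j)) =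
        ∑ n ∈ range Q, (starRingEnd ℂ) (P.coeff n) * (starRingEnd ℂ) (zt Q ^ (n * j)) := by
      intro j
      rw [Polynomial.eval_eq_sum_range' hP, map_sum]
      refine Finset.sum_congr rfl fun n _ => ?_
      rw [map_mul, ← pow_mul, mul_comm j n]
    have h3 : ∀ j : ℕ, P.eval (zt Q ^ j) * (starRingEnd ℂ) (P.eval (zt Q ^ j)) =
        ∑ n ∈ range Q, (starRingEnd ℂ) (P.coeff n) *
          (P.eval (zt Q ^ j) * (starRingEnd ℂ) (zt Q ^ (n * j))) := by
      intro j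
      rw [h2 j, Finset.mul_sum]
      refine Finset.sum_congr rfl fun n _ => ?_
      ring
    simp_rw [h3]
    rw [Finset.sum_comm, Finset.mul_sum]
    refine Finset.sum_congr rfl fun n hn => ?_
    rw [← Finset.mul_sum, inversion hQ P hP (Finset.mem_range.1 hn)]
    push_cast
    ring
  exact_mod_cast h1

/-- The polynomial `1 + X^d + ... + X^((l-1)d)`. -/
noncomputable def dir (d l : ℕ) : ℂ[X] := ∑ k ∈ range l, (X : ℂ[X]) ^ (k * d)

theorem natDegree_dir_le (d l : ℕ) : (dir d l).natDegree ≤ l * d := by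
  unfold dir
  refine Polynomial.natDegree_sum_le_of_forall_le _ _ fun k hk => ?_
  rw [Polynomial.natDegree_X_pow]
  exact Nat.mul_le_mul_right d (Finset.mem_range.1 hk).le

theorem coeff_mul_dir (P : ℂ[X]) (d l m : ℕ) :
    (P * dir d l).coeff m = ∑ k ∈ range l, if k * d ≤ m then P.coeff (m - k * d) else 0 := by
  unfold dir
  rw [Finset.mul_sum, Polynomial.finset_sum_coeff]
  refine Finset.sum_congr rfl fun k _ => ?_
  rw [Polynomial.coeff_mul_X_pow']

/-- Lower bound for the kernel near the fractions `a/d`. -/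
theorem norm_dir_ge {Q : ℕ} (hQ : Q ≠ 0) {d l j : ℕ} (a : ℤ)
    (h : 6 * (l : ℤ) * |(j : ℤ) * d - a * Q| ≤ Q) :
    (l : ℝ) / 2 ≤ ‖(dir d l).eval (zt Q ^ j)‖ := by
  have h1 : (l : ℝ) / 2 ≤ ((dir d l).eval (zt Q ^ j)).re := by
    unfold dir
    rw [Polynomial.eval_finset_sum, Complex.re_sum]
    have h2 : ∀ k ∈ range l, (1 : ℝ) / 2 ≤ (((X : ℂ[X]) ^ (k * d)).eval (zt Q ^ j)).re := by
      intro k hk
      have hk' : k < l := Finset.mem_range.1 hk
      rw [Polynomial.eval_pow, Polynomial.eval_X, ← pow_mul, zt_pow_eq]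
      have hQ' : (Q : ℝ) ≠ 0 := by exact_mod_cast hQ
      have hQpos : (0 : ℝ) < Q := by positivity
      have e1 : (2 * Real.pi * Complex.I * ((j * (k * d) : ℕ) : ℂ) / Q : ℂ) =
          ((2 * Real.pi * (k * ((j : ℝ) * d - a * Q)) / Q : ℝ) : ℂ) * Complex.I +
            ((a * k : ℤ) : ℂ) * (2 * Real.pi * Complex.I) := by
        push_cast
        have hQc : (Q : ℂ) ≠ 0 := by exact_mod_cast hQ
        field_simp
        ring
      rw [e1, Complex.exp_add, Complex.exp_int_mul_two_pi_mul_I, mul_one,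
        Complex.exp_ofReal_mul_I_re]
      have h3 : |2 * Real.pi * (k * ((j : ℝ) * d - a * Q)) / Q| ≤ Real.pi / 3 := by
        have h4 : 6 * (l : ℝ) * |(j : ℝ) * d - a * Q| ≤ Q := by exact_mod_cast h
        have h5 : (k : ℝ) * |(j : ℝ) * d - a * Q| ≤ l * |(j : ℝ) * d - a * Q| := by
          have : (k : ℝ) ≤ l := by exact_mod_cast hk'.le
          exact mul_le_mul_of_nonneg_right this (abs_nonneg _)
        rw [abs_div, abs_mul, abs_mul, abs_mul, abs_of_pos hQpos, abs_of_pos Real.pi_pos,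
          Nat.abs_cast, abs_two, div_le_iff₀ hQpos]
        have h6 : (k : ℝ) * |(j : ℝ) * d - a * Q| ≤ Q / 6 := by linarith
        nlinarith [Real.pi_pos]
      have h4 : Real.cos (Real.pi / 3) ≤
          Real.cos |2 * Real.pi * (k * ((j : ℝ) * d - a * Q)) / Q| := by
        apply Real.cos_le_cos_of_nonneg_of_le_pi (abs_nonneg _) _ h3
        linarith [Real.pi_pos]
      rw [Real.cos_abs, Real.cos_pi_div_three] at h4
      exact h4
    have h5 := Finset.sum_le_sum h2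
    simp only [Finset.sum_const, Finset.card_range, nsmul_eq_mul] at h5
    linarith
  exact h1.trans (Complex.re_le_norm _)

end Pool.Agent.H.MP_02f3ba_co.h16
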