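import Pool.Agent.H.MP_02f3ba_co.h16.Count

set_option autoImplicit false

namespace Pool.Agent.H.MP_02f3ba_co.h16

open Finset

/-- The data of the argument: denominators `D`, lengths `l`, modulus `Q`. -/
structure Data where
  D : Finset ℕ
  l : ℕ → ℕ
  Q : ℕ
  two_le : ∀ d ∈ D, 2 ≤ d
  le_l : ∀ d ∈ D, d ≤ l d
  Qpos : 0 < Q
  dvd : ∀ d ∈ D, 6 * d * l d ∣ Q

namespace Data

variable (X : Data)

/-- The radius. -/
def r (d : ℕ) : ℕ := X.Q / (6 * d * X.l d)

/-- The set attached to `d`. -/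
def A (d : ℕ) : Finset ℕ := arc X.Q d (X.r d)

/-- The number of `d` whose set contains `j`. -/
noncomputable def N (j : ℕ) : ℝ := ∑ d ∈ X.D, if j ∈ X.A d then 1 else 0

/-- The sum of the `1 / l d`. -/
noncomputable def sg : ℝ := ∑ d ∈ X.D, 1 / (X.l d : ℝ)

theorem l_pos {d : ℕ} (hd : d ∈ X.D) : 0 < X.l d := by
  have h1 := X.two_le d hd
  have h2 := X.le_l d hd
  omega

theorem r_eq {d : ℕ} (hd : d ∈ X.D) : 6 * d * X.l d * X.r d = X.Q := by
  unfold r
  exact Nat.mul_div_cancel' (X.dvd d hd)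

theorem r_real {d : ℕ} (hd : d ∈ X.D) : (X.r d : ℝ) = X.Q / (6 * d * X.l d) := by
  have h1 := X.r_eq hd
  have h2 : (6 : ℝ) * d * X.l d * X.r d = X.Q := by exact_mod_cast h1
  have h3 : (0 : ℝ) < d := by
    have := X.two_le d hd
    exact_mod_cast (by omega : 0 < d)
  have h4 : (0 : ℝ) < X.l d := by exact_mod_cast X.l_pos hd
  rw [eq_div_iff (by positivity)]
  linarith

theorem d_dvd {d : ℕ} (hd : d ∈ X.D) : d ∣ X.Q :=
  dvd_trans (Dvd.intro _ (by ring : d * (6 * X.l d) = 6 * d * X.l d)) (X.dvd d hd)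

theorem two_r_le {d : ℕ} (hd : d ∈ X.D) : 2 * X.r d ≤ X.Q / d := by
  have h1 := X.r_eq hd
  have h2 := X.two_le d hd
  have h3 := X.l_pos hd
  rw [Nat.le_div_iff_mul_le (by omega)]
  have h4 : 2 * X.r d * d * 1 ≤ 2 * X.r d * d * (3 * X.l d) := Nat.mul_le_mul_left _ (by omega)
  have h5 : 2 * X.r d * d * (3 * X.l d) = X.Q := by rw [← h1]; ring
  omega

theorem A_subset {d : ℕ} (hd : d ∈ X.D) : X.A d ⊆ range X.Q :=
  arc_subset (X.two_le d hd) (X.d_dvd hd) (X.two_r_le hd)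

theorem card_A {d : ℕ} (hd : d ∈ X.D) :
    ((X.A d).card : ℝ) = X.Q * ((d.totient / d) / (3 * X.l d)) := by
  have h1 : (X.A d).card = 2 * X.r d * d.totient := card_arc (X.two_le d hd) (X.two_r_le hd)
  rw [h1]
  push_cast
  rw [X.r_real hd]
  have h3 : (0 : ℝ) < d := by
    have := X.two_le d hd
    exact_mod_cast (by omega : 0 < d)
  have h4 : (0 : ℝ) < X.l d := by exact_mod_cast X.l_pos hd
  field_simp
  ring

theorem card_inter {d d' : ℕ} (hd : d ∈ X.D) (hd' : d' ∈ X.D) (hlt : d < d') :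
    (((X.A d) ∩ (X.A d')).card : ℝ) ≤
      X.Q / 9 * (1 / ((X.l d : ℝ) * X.l d') + 1 / (X.l d' : ℝ) ^ 2) := by
  have h0 := inter_card (r := X.r d) (X.two_le d hd) (X.two_le d' hd') hlt.ne X.Qpos
    (X.d_dvd hd) (X.d_dvd hd') (X.two_r_le hd')
  have hQ : (0 : ℝ) < X.Q := by exact_mod_cast X.Qpos
  have h3 : (0 : ℝ) < d := by
    have := X.two_le d hd
    exact_mod_cast (by omega : 0 < d)
  have h3' : (0 : ℝ) < d' := by
    have := X.two_le d' hd'
    exact_mod_cast (by omega : 0 < d')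
  have h4 : (0 : ℝ) < X.l d := by exact_mod_cast X.l_pos hd
  have h4' : (0 : ℝ) < X.l d' := by exact_mod_cast X.l_pos hd'
  rw [X.r_real hd, X.r_real hd'] at h0
  refine h0.trans ?_
  have h5 : 2 * (X.Q / (6 * d' * X.l d')) * (2 * ((X.Q / (6 * d * X.l d) +
      X.Q / (6 * d' * X.l d')) * (d * d') / X.Q)) =
      X.Q / 9 * (1 / ((X.l d : ℝ) * X.l d') + (d / d') / (X.l d' : ℝ) ^ 2) := by
    field_simp
    ring
  rw [h5]
  have h6 : (d : ℝ) / d' ≤ 1 := by
    rw [div_le_one h3']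
    exact_mod_cast hlt.le
  gcongr

theorem sum_N : ∑ j ∈ range X.Q, X.N j = ∑ d ∈ X.D, ((X.A d).card : ℝ) := by
  unfold N
  rw [Finset.sum_comm]
  refine Finset.sum_congr rfl fun d hd => ?_
  rw [← Finset.sum_filter, Finset.sum_const, nsmul_eq_mul, mul_one,
    Finset.filter_mem_eq_inter, Finset.inter_eq_right.2 (X.A_subset hd)]

theorem sum_N_sq : ∑ j ∈ range X.Q, X.N j ^ 2 =
    ∑ d ∈ X.D, ∑ d' ∈ X.D, (((X.A d) ∩ (X.A d')).card : ℝ) := by
  unfold N
  have h1 : ∀ j : ℕ, (∑ d ∈ X.D, if j ∈ X.A d then (1 : ℝ) else 0) ^ 2 =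
      ∑ d ∈ X.D, ∑ d' ∈ X.D, if j ∈ X.A d ∩ X.A d' then (1 : ℝ) else 0 := by
    intro j
    rw [sq, Finset.sum_mul_sum]
    refine Finset.sum_congr rfl fun d _ => Finset.sum_congr rfl fun d' _ => ?_
    by_cases h : j ∈ X.A d <;> by_cases h' : j ∈ X.A d' <;> simp [h, h']
  simp_rw [h1]
  rw [Finset.sum_comm]
  refine Finset.sum_congr rfl fun d hd => ?_
  rw [Finset.sum_comm]
  refine Finset.sum_congr rfl fun d' _ => ?_
  rw [← Finset.sum_filter, Finset.sum_const, nsmul_eq_mul, mul_one,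
    Finset.filter_mem_eq_inter,
    Finset.inter_eq_right.2 (Finset.inter_subset_left.trans (X.A_subset hd))]

theorem sum_N_le : ∑ j ∈ range X.Q, X.N j ≤ X.Q * (X.sg / 3) := by
  rw [X.sum_N, sg, Finset.sum_div, Finset.mul_sum]
  refine Finset.sum_le_sum fun d hd => ?_
  rw [X.card_A hd]
  have h3 : (0 : ℝ) < d := by
    have := X.two_le d hd
    exact_mod_cast (by omega : 0 < d)
  have h4 : (0 : ℝ) < X.l d := by exact_mod_cast X.l_pos hd
  have h5 : (d.totient : ℝ) / d ≤ 1 := by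
    rw [div_le_one h3]
    exact_mod_cast Nat.totient_le d
  have h6 : (1 : ℝ) / X.l d / 3 = 1 / (3 * X.l d) := by field_simp
  rw [h6]
  gcongr

theorem le_sum_N {τ : ℝ} (hτ : X.sg - τ ≤ ∑ d ∈ X.D, (d.totient / d : ℝ) / X.l d) :
    X.Q * ((X.sg - τ) / 3) ≤ ∑ j ∈ range X.Q, X.N j := by
  rw [X.sum_N]
  have h1 : ∑ d ∈ X.D, ((X.A d).card : ℝ) =
      X.Q * ((∑ d ∈ X.D, (d.totient / d : ℝ) / X.l d) / 3) := by
    rw [Finset.sum_div, Finset.mul_sum]
    refine Finset.sum_congr rfl fun d hd => ?_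
    rw [X.card_A hd]
    rw [div_div ((d.totient : ℝ) / d) (X.l d : ℝ) 3, mul_comm (X.l d : ℝ) 3]
  rw [h1]
  gcongr

theorem sum_N_sq_le : ∑ j ∈ range X.Q, X.N j ^ 2 ≤
    X.Q * ((X.sg / 3) ^ 2 + 5 / 3 * (X.sg / 3)) := by
  have hQ : (0 : ℝ) < X.Q := by exact_mod_cast X.Qpos
  rw [X.sum_N_sq]
  have h1 : ∀ d ∈ X.D, ∀ d' ∈ X.D, (((X.A d) ∩ (X.A d')).card : ℝ) ≤
      (if d = d' then ((X.A d).card : ℝ) else 0) +
        X.Q / 9 * (1 / ((X.l d : ℝ) * X.l d')) +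
        (if d < d' then X.Q / 9 * (1 / (X.l d' : ℝ) ^ 2) else 0) +
        (if d' < d then X.Q / 9 * (1 / (X.l d : ℝ) ^ 2) else 0) := by
    intro d hd d' hd'
    have h4 : (0 : ℝ) < X.l d := by exact_mod_cast X.l_pos hd
    have h4' : (0 : ℝ) < X.l d' := by exact_mod_cast X.l_pos hd'
    rcases lt_trichotomy d d' with h | h | h
    · have := X.card_inter hd hd' h
      rw [if_neg h.ne, if_pos h, if_neg (by omega)]
      linarith
    · subst h
      rw [Finset.inter_self]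
      simp only [lt_irrefl, if_false, if_true]
      have : 0 ≤ X.Q / 9 * (1 / ((X.l d : ℝ) * X.l d)) := by positivity
      linarith
    · have := X.card_inter hd' hd h
      rw [if_neg (by omega), if_pos h, if_neg (by omega), Finset.inter_comm,
        mul_comm (X.l d : ℝ)]
      linarith
  have h2 := Finset.sum_le_sum fun d hd => Finset.sum_le_sum fun d' hd' => h1 d hd d' hd'
  refine h2.trans ?_
  have e1 : ∑ d ∈ X.D, ∑ d' ∈ X.D, (if d = d' then ((X.A d).card : ℝ) else 0) ≤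
      X.Q * (X.sg / 3) := by
    have : ∑ d ∈ X.D, ∑ d' ∈ X.D, (if d = d' then ((X.A d).card : ℝ) else 0) =
        ∑ d ∈ X.D, ((X.A d).card : ℝ) := by
      refine Finset.sum_congr rfl fun d hd => ?_
      rw [Finset.sum_ite_eq, if_pos hd]
    rw [this, ← X.sum_N]
    exact X.sum_N_le
  have e2 : ∑ d ∈ X.D, ∑ d' ∈ X.D, X.Q / 9 * (1 / ((X.l d : ℝ) * X.l d')) =
      X.Q / 9 * X.sg ^ 2 := by
    unfold sg
    rw [sq, Finset.sum_mul_sum, Finset.mul_sum]
    refine Finset.sum_congr rfl fun d _ => ?_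
    rw [Finset.mul_sum]
    refine Finset.sum_congr rfl fun d' _ => ?_
    rw [one_div_mul_one_div]
  have e4 : ∑ d ∈ X.D, ∑ d' ∈ X.D,
      (if d' < d then X.Q / 9 * (1 / (X.l d : ℝ) ^ 2) else 0) ≤ X.Q / 9 * X.sg := by
    unfold sg
    rw [Finset.mul_sum]
    refine Finset.sum_le_sum fun d hd => ?_
    have h4 : (0 : ℝ) < X.l d := by exact_mod_cast X.l_pos hd
    rw [← Finset.sum_filter, Finset.sum_const, nsmul_eq_mul]
    have h5 : (X.D.filter (fun d' => d' < d)).card ≤ d := by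
      have h55 : X.D.filter (fun d' => d' < d) ⊆ range d := fun x hx =>
        mem_range.2 (mem_filter.1 hx).2
      exact (Finset.card_le_card h55).trans (Finset.card_range d).le
    have h6 : ((X.D.filter (fun d' => d' < d)).card : ℝ) ≤ X.l d := by
      exact_mod_cast h5.trans (X.le_l d hd)
    have h7 : (X.l d : ℝ) * (X.Q / 9 * (1 / (X.l d : ℝ) ^ 2)) = X.Q / 9 * (1 / X.l d) := by
      field_simp
    rw [← h7]
    have h8 : 0 ≤ X.Q / 9 * (1 / (X.l d : ℝ) ^ 2) := by positivity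
    exact mul_le_mul_of_nonneg_right h6 h8
  have e3 : ∑ d ∈ X.D, ∑ d' ∈ X.D,
      (if d < d' then X.Q / 9 * (1 / (X.l d' : ℝ) ^ 2) else 0) ≤ X.Q / 9 * X.sg := by
    rw [Finset.sum_comm]
    exact e4
  simp only [Finset.sum_add_distrib]
  rw [e2]
  nlinarith [e1, e3, e4]

theorem sg_nonneg : 0 ≤ X.sg := by
  unfold sg
  exact Finset.sum_nonneg fun d _ => by positivity

/-- The exceptional set is small. -/
theorem card_exc {τ m : ℝ} (hm : m = X.sg / 3) (hm0 : 0 < m)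
    (hτ : X.sg - τ ≤ ∑ d ∈ X.D, (d.totient / d : ℝ) / X.l d) :
    (((range X.Q).filter (fun j => X.N j < m / 2)).card : ℝ) ≤
      X.Q * ((20 + 8 * τ) / (3 * m)) := by
  have hQ : (0 : ℝ) < X.Q := by exact_mod_cast X.Qpos
  have h1 : ∑ j ∈ range X.Q, (X.N j - m) ^ 2 ≤ X.Q * (5 / 3 * m + 2 / 3 * (m * τ)) := by
    have h2 : ∑ j ∈ range X.Q, (X.N j - m) ^ 2 = ∑ j ∈ range X.Q, X.N j ^ 2 -
        2 * m * ∑ j ∈ range X.Q, X.N j + X.Q * m ^ 2 := by
      have : ∀ j : ℕ, (X.N j - m) ^ 2 = X.N j ^ 2 - 2 * m * X.N j + m ^ 2 := fun j => by ring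
      simp_rw [this]
      rw [Finset.sum_add_distrib, Finset.sum_sub_distrib, ← Finset.mul_sum]
      simp
    have h3 := X.sum_N_sq_le
    have h4 := X.le_sum_N hτ
    have h5 : X.sg = 3 * m := by linarith
    rw [h5] at h3 h4
    rw [h2]
    have h6 : 2 * m * (X.Q * ((3 * m - τ) / 3)) ≤ 2 * m * ∑ j ∈ range X.Q, X.N j := by
      apply mul_le_mul_of_nonneg_left h4
      linarith
    have h7 : (3 * m / 3) = m := by ring
    rw [h7] at h3
    nlinarith
  have h2 : (((range X.Q).filter (fun j => X.N j < m / 2)).card : ℝ) * (m / 2) ^ 2 ≤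
      ∑ j ∈ range X.Q, (X.N j - m) ^ 2 := by
    rw [← nsmul_eq_mul, ← Finset.sum_const]
    refine (Finset.sum_le_sum fun j hj => ?_).trans
      (Finset.sum_le_sum_of_subset_of_nonneg (Finset.filter_subset _ _)
        fun j _ _ => sq_nonneg _)
    have h3 := (mem_filter.1 hj).2
    nlinarith
  have h3 := h2.trans h1
  have h4 : X.Q * ((20 + 8 * τ) / (3 * m)) =
      (X.Q * (5 / 3 * m + 2 / 3 * (m * τ))) / (m / 2) ^ 2 := by
    field_simp
    ring
  rw [h4, le_div_iff₀ (by positivity)]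
  exact h3

end Data

end Pool.Agent.H.MP_02f3ba_co.h16
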