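import Pool.Agent.H.MP_02f3ba_co.h16.Moment

set_option autoImplicit false

namespace Pool.Agent.H.MP_02f3ba_co.h16

open Finset

/-- Few residues are not reduced. -/
theorem sub_totient_le {d : ℕ} (hd : 0 < d) :
    1 - (d.totient : ℝ) / d ≤ ∑ e ∈ d.divisors.erase 1, 1 / (e : ℝ) := by
  have h1 : (range d).filter (fun a => ¬ d.Coprime a) ⊆
      (d.divisors.erase 1).biUnion (fun e => (range d).filter (fun a => e ∣ a)) := by
    intro a ha
    rw [mem_filter] at ha
    rw [mem_biUnion]
    refine ⟨Nat.gcd d a, ?_, ?_⟩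
    · rw [mem_erase, Nat.mem_divisors]
      exact ⟨ha.2, Nat.gcd_dvd_left d a, hd.ne'⟩
    · rw [mem_filter]
      exact ⟨ha.1, Nat.gcd_dvd_right d a⟩
  have h2 : ∀ e ∈ d.divisors.erase 1, ((range d).filter (fun a => e ∣ a)).card ≤ d / e := by
    intro e he
    rw [mem_erase, Nat.mem_divisors] at he
    rw [← Finset.card_range (d / e)]
    refine Finset.card_le_card_of_injOn (fun a => a / e) ?_ ?_
    · intro a ha
      rw [Finset.mem_coe, mem_filter, mem_range] at ha
      rw [Finset.mem_coe, mem_range]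
      obtain ⟨c, hc⟩ := he.2.1
      have hepos : 0 < e := Nat.pos_of_dvd_of_pos he.2.1 hd
      have h3 : d / e = c := by rw [hc]; exact Nat.mul_div_cancel_left c hepos
      rw [h3]
      exact Nat.div_lt_of_lt_mul (by rw [← hc]; exact ha.1)
    · intro a ha b hb hab
      rw [Finset.mem_coe, mem_filter] at ha hb
      rw [← Nat.div_mul_cancel ha.2, ← Nat.div_mul_cancel hb.2]
      exact congrArg (· * e) hab
  have h3 : ((range d).filter (fun a => ¬ d.Coprime a)).card ≤
      ∑ e ∈ d.divisors.erase 1, d / e := by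
    refine (Finset.card_le_card h1).trans (Finset.card_biUnion_le.trans ?_)
    exact Finset.sum_le_sum h2
  have h4 : d = d.totient + ((range d).filter (fun a => ¬ d.Coprime a)).card := by
    have h5 := Finset.card_filter_add_card_filter_not (s := range d) (fun a => d.Coprime a)
    rw [Finset.card_range] at h5
    exact h5.symm
  have h5 : (d : ℝ) - d.totient ≤ ∑ e ∈ d.divisors.erase 1, (d : ℝ) / e := by
    have h6 : (((range d).filter (fun a => ¬ d.Coprime a)).card : ℝ) ≤
        ∑ e ∈ d.divisors.erase 1, ((d / e : ℕ) : ℝ) := by exact_mod_cast h3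
    have h7 : (d : ℝ) = d.totient + ((range d).filter (fun a => ¬ d.Coprime a)).card := by
      exact_mod_cast h4
    have h8 : ∑ e ∈ d.divisors.erase 1, ((d / e : ℕ) : ℝ) ≤
        ∑ e ∈ d.divisors.erase 1, (d : ℝ) / e :=
      Finset.sum_le_sum fun e _ => Nat.cast_div_le
    linarith
  have hd' : (0 : ℝ) < d := by exact_mod_cast hd
  have h6 : 1 - (d.totient : ℝ) / d = ((d : ℝ) - d.totient) / d := by
    field_simp
  rw [h6, div_le_iff₀ hd', Finset.sum_mul]
  refine h5.trans (le_of_eq (Finset.sum_congr rfl fun e _ => by ring))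

/-- The members of a progression divisible by `e`. -/
theorem prog_sum {b : ℕ → ℝ} (hb : ∀ i j, i ≤ j → b j ≤ b i) (hb0 : ∀ i, 0 ≤ b i)
    {q e K : ℕ} (hcop : Nat.Coprime e q) (he : 0 < e)
    (hfirst : ∀ k, e ∣ 1 + k * q → b k ≤ 1 / (e : ℝ)) :
    ∑ k ∈ (Icc 1 K).filter (fun k => e ∣ 1 + k * q), b k ≤
      (1 + ∑ k ∈ Icc 1 K, b k) / e := by
  have hmod : ∀ k k', e ∣ 1 + k * q → e ∣ 1 + k' * q → k ≡ k' [MOD e] := by
    intro k k' hk hk'
    have h1 : ((k : ℤ) * q) ≡ (k' : ℤ) * q [ZMOD e] := by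
      rw [Int.modEq_iff_dvd]
      have h2 : (e : ℤ) ∣ 1 + k * q := by exact_mod_cast hk
      have h3 : (e : ℤ) ∣ 1 + k' * q := by exact_mod_cast hk'
      have h4 := dvd_sub h3 h2
      have h5 : (1 + (k' : ℤ) * q) - (1 + k * q) = k' * q - k * q := by ring
      rwa [h5] at h4
    have h2 : (k * q) ≡ k' * q [MOD e] := by
      rw [← Int.natCast_modEq_iff]
      push_cast
      exact h1
    exact Nat.ModEq.cancel_right_of_coprime hcop h2
  set S := (Icc 1 K).filter (fun k => e ∣ 1 + k * q) with hS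
  have heR : (0 : ℝ) < e := by exact_mod_cast he
  have hsum0 : 0 ≤ ∑ k ∈ Icc 1 K, b k := Finset.sum_nonneg fun k _ => hb0 k
  rcases S.eq_empty_or_nonempty with h0 | h0
  · rw [h0, Finset.sum_empty]
    positivity
  · set k1 := S.min' h0 with hk1
    have hk1S : k1 ∈ S := Finset.min'_mem S h0
    rw [← Finset.add_sum_erase S b hk1S]
    have h1 : b k1 ≤ 1 / e := hfirst k1 (by rw [hS, mem_filter] at hk1S; exact hk1S.2)
    have hge : ∀ k ∈ S.erase k1, e < k := by
      intro k hk
      rw [mem_erase] at hk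
      have h2 : k1 < k := lt_of_le_of_ne (Finset.min'_le S k hk.2) (Ne.symm hk.1)
      have hk1' := hk1S
      have hk' := hk.2
      rw [hS, mem_filter, mem_Icc] at hk1' hk'
      have h3 := hmod k1 k hk1'.2 hk'.2
      have h4 : e ∣ k - k1 := (Nat.modEq_iff_dvd' h2.le).1 h3
      have h5 : e ≤ k - k1 := Nat.le_of_dvd (by omega) h4
      omega
    have h2 : (e : ℝ) * ∑ k ∈ S.erase k1, b k ≤ ∑ k ∈ Icc 1 K, b k := by
      have h3 : (e : ℝ) * ∑ k ∈ S.erase k1, b k =
          ∑ p ∈ (S.erase k1) ×ˢ (range e), b p.1 := by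
        rw [Finset.sum_product, Finset.mul_sum]
        refine Finset.sum_congr rfl fun k _ => ?_
        simp
      have h4 : ∑ p ∈ (S.erase k1) ×ˢ (range e), b p.1 ≤
          ∑ p ∈ (S.erase k1) ×ˢ (range e), b (p.1 - p.2) :=
        Finset.sum_le_sum fun p _ => hb _ _ (Nat.sub_le _ _)
      have h5 : Set.InjOn (fun p : ℕ × ℕ => p.1 - p.2)
          (((S.erase k1) ×ˢ (range e) : Finset (ℕ × ℕ)) : Set (ℕ × ℕ)) := by
        intro p hp p' hp' hpp
        rw [Finset.mem_coe, mem_product, mem_range] at hp hp'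
        have h6 := hge p.1 hp.1
        have h7 := hge p'.1 hp'.1
        have h8 : p.1 - p.2 = p'.1 - p'.2 := hpp
        have hkS := hp.1
        have hkS' := hp'.1
        rw [mem_erase, hS, mem_filter, mem_Icc] at hkS hkS'
        have h9 := hmod p.1 p'.1 hkS.2.2 hkS'.2.2
        have h10 : p.1 = p'.1 := by
          rcases lt_trichotomy p.1 p'.1 with h | h | h
          · have h11 : e ∣ p'.1 - p.1 := (Nat.modEq_iff_dvd' h.le).1 h9
            have h12 := Nat.le_of_dvd (by omega) h11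
            omega
          · exact h
          · have h11 : e ∣ p.1 - p'.1 := (Nat.modEq_iff_dvd' h.le).1 h9.symm
            have h12 := Nat.le_of_dvd (by omega) h11
            omega
        exact Prod.ext h10 (by omega)
      have h6 : ∑ p ∈ (S.erase k1) ×ˢ (range e), b (p.1 - p.2) =
          ∑ i ∈ ((S.erase k1) ×ˢ (range e)).image (fun p : ℕ × ℕ => p.1 - p.2), b i :=
        (Finset.sum_image h5).symm
      have h7 : ((S.erase k1) ×ˢ (range e)).image (fun p : ℕ × ℕ => p.1 - p.2) ⊆ Icc 1 K := by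
        intro i hi
        rw [mem_image] at hi
        obtain ⟨p, hp, rfl⟩ := hi
        rw [mem_product, mem_range] at hp
        have h8 := hge p.1 hp.1
        have h9 := hp.1
        rw [mem_erase, hS, mem_filter, mem_Icc] at h9
        rw [mem_Icc]
        omega
      rw [h3]
      refine h4.trans ?_
      rw [h6]
      exact Finset.sum_le_sum_of_subset_of_nonneg h7 fun i _ _ => hb0 i
    have h3 : ∑ k ∈ S.erase k1, b k ≤ (∑ k ∈ Icc 1 K, b k) / e := by
      rw [le_div_iff₀ heR]
      linarith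
    rw [add_div]
    linarith

/-- The denominators `1 + k y!`. -/
def prog (y K : ℕ) : Finset ℕ := (Icc 1 K).image (fun k => 1 + k * y.factorial)

theorem prog_inj (y : ℕ) : Function.Injective (fun k : ℕ => 1 + k * y.factorial) := by
  intro a b h
  have h1 : a * y.factorial = b * y.factorial := by
    have : 1 + a * y.factorial = 1 + b * y.factorial := h
    omega
  exact Nat.eq_of_mul_eq_mul_right (Nat.factorial_pos y) h1

theorem sum_inv_sq (y n : ℕ) (hy : 1 ≤ y) :
    ∑ e ∈ Ioc y (y + n), 1 / (e : ℝ) ^ 2 ≤ 1 / (y : ℝ) - 1 / ((y : ℝ) + n) := by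
  induction n with
  | zero => simp
  | succ n ih =>
    have h1 : Ioc y (y + (n + 1)) = insert (y + (n + 1)) (Ioc y (y + n)) := by
      ext x
      rw [mem_insert, mem_Ioc, mem_Ioc]
      omega
    rw [h1, Finset.sum_insert (by rw [mem_Ioc]; omega)]
    have hyR : (1 : ℝ) ≤ y := by exact_mod_cast hy
    have h2 : 1 / (((y + (n + 1) : ℕ) : ℝ)) ^ 2 ≤
        1 / ((y : ℝ) + n) - 1 / ((y : ℝ) + (n + 1 : ℕ)) := by
      push_cast
      have h3 : (1 : ℝ) / ((y : ℝ) + n) - 1 / ((y : ℝ) + (n + 1)) =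
          1 / (((y : ℝ) + n) * (y + (n + 1))) := by
        field_simp
        ring
      rw [h3]
      apply one_div_le_one_div_of_le
      · positivity
      · nlinarith
    push_cast at *
    linarith

theorem tot_sum {l : ℕ → ℕ} (hl : ∀ i j, i ≤ j → l i ≤ l j) (hl1 : ∀ i, 1 ≤ i → i ≤ l i)
    {y K : ℕ} (hy : 1 ≤ y) :
    ∑ d ∈ prog y K, 1 / (l d : ℝ) - (1 + ∑ d ∈ prog y K, 1 / (l d : ℝ)) / y ≤
      ∑ d ∈ prog y K, (d.totient / d : ℝ) / l d := by
  set q := y.factorial with hq
  set b : ℕ → ℝ := fun k => 1 / (l (1 + k * q) : ℝ) with hbdef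
  have hlpos : ∀ k, (0 : ℝ) < l (1 + k * q) := by
    intro k
    have := hl1 (1 + k * q) (by omega)
    exact_mod_cast (by omega : 0 < l (1 + k * q))
  have hb : ∀ i j, i ≤ j → b j ≤ b i := by
    intro i j hij
    simp only [hbdef]
    apply one_div_le_one_div_of_le (hlpos i)
    have : 1 + i * q ≤ 1 + j * q := by
      have := Nat.mul_le_mul_right q hij
      omega
    exact_mod_cast hl _ _ this
  have hb0 : ∀ i, 0 ≤ b i := fun i => by
    simp only [hbdef]
    have := hlpos i
    positivity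
  have hS : ∀ f : ℕ → ℝ, ∑ d ∈ prog y K, f d = ∑ k ∈ Icc 1 K, f (1 + k * q) := by
    intro f
    unfold prog
    rw [Finset.sum_image fun a _ b _ h => prog_inj y h]
  have hσ : ∑ d ∈ prog y K, 1 / (l d : ℝ) = ∑ k ∈ Icc 1 K, b k := hS _
  rw [hσ, hS (fun d => (d.totient / d : ℝ) / l d)]
  set σ := ∑ k ∈ Icc 1 K, b k with hσdef
  have hσ0 : 0 ≤ σ := Finset.sum_nonneg fun k _ => hb0 k
  have hyR : (1 : ℝ) ≤ y := by exact_mod_cast hy
  -- bound for the defect
  have h1 : ∀ k ∈ Icc 1 K, b k - (((1 + k * q).totient : ℝ) / ((1 + k * q : ℕ) : ℝ)) / l (1 + k * q)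
      ≤ ∑ e ∈ Ioc y (y + (1 + K * q)), if e ∣ 1 + k * q then b k / e else 0 := by
    intro k hk
    rw [mem_Icc] at hk
    have h2 := sub_totient_le (d := 1 + k * q) (by omega)
    have h3 : b k - (((1 + k * q).totient : ℝ) / ((1 + k * q : ℕ) : ℝ)) / l (1 + k * q) =
        b k * (1 - (((1 + k * q).totient : ℝ) / ((1 + k * q : ℕ) : ℝ))) := by
      simp only [hbdef]
      ring
    rw [h3]
    refine (mul_le_mul_of_nonneg_left h2 (hb0 k)).trans ?_
    rw [Finset.mul_sum, ← Finset.sum_filter]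
    have h4 : ∀ e ∈ (1 + k * q).divisors.erase 1, b k * (1 / (e : ℝ)) = b k / e := by
      intro e _
      ring
    rw [Finset.sum_congr rfl h4]
    refine Finset.sum_le_sum_of_subset_of_nonneg ?_ fun e _ _ => div_nonneg (hb0 k) (by positivity)
    intro e he
    rw [mem_erase, Nat.mem_divisors] at he
    rw [mem_filter, mem_Ioc]
    refine ⟨⟨?_, ?_⟩, he.2.1⟩
    · by_contra hle
      push Not at hle
      have h5 : e ∣ q := Nat.dvd_factorial (Nat.pos_of_dvd_of_pos he.2.1 (by omega)) hle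
      have h6 : e ∣ 1 := (Nat.dvd_add_left (h5.mul_left k)).1 he.2.1
      exact he.1 (Nat.dvd_one.1 h6)
    · have h5 := Nat.le_of_dvd (by omega) he.2.1
      have h6 := Nat.mul_le_mul_right q hk.2
      omega
  have h2 := Finset.sum_le_sum h1
  rw [Finset.sum_comm] at h2
  have h3 : ∀ e ∈ Ioc y (y + (1 + K * q)),
      ∑ k ∈ Icc 1 K, (if e ∣ 1 + k * q then b k / e else 0) ≤ (1 + σ) * (1 / (e : ℝ) ^ 2) := by
    intro e he
    rw [mem_Ioc] at he
    have hepos : 0 < e := by omega
    have heR : (0 : ℝ) < e := by exact_mod_cast hepos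
    rw [← Finset.sum_filter, ← Finset.sum_div]
    have h5 : ∑ k ∈ (Icc 1 K).filter (fun k => e ∣ 1 + k * q), b k ≤ (1 + σ) / e := by
      by_cases hcop : Nat.Coprime e q
      · refine prog_sum hb hb0 hcop hepos ?_
        intro k hk
        simp only [hbdef]
        apply one_div_le_one_div_of_le heR
        have h6 := Nat.le_of_dvd (by omega) hk
        have h7 := hl1 (1 + k * q) (by omega)
        exact_mod_cast h6.trans h7
      · have h6 : (Icc 1 K).filter (fun k => e ∣ 1 + k * q) = ∅ := by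
          rw [Finset.filter_eq_empty_iff]
          intro k _ hk
          apply hcop
          have h7 : Nat.Coprime (1 + k * q) q := by
            rw [Nat.coprime_add_mul_right_left]
            exact Nat.coprime_one_left q
          exact Nat.Coprime.coprime_dvd_left hk h7
        rw [h6, Finset.sum_empty]
        positivity
    calc (∑ k ∈ (Icc 1 K).filter (fun k => e ∣ 1 + k * q), b k) / e
        ≤ ((1 + σ) / e) / e := by gcongr
      _ = (1 + σ) * (1 / (e : ℝ) ^ 2) := by
        field_simp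
  have h4 := h2.trans (Finset.sum_le_sum h3)
  rw [← Finset.mul_sum, Finset.sum_sub_distrib] at h4
  have h5 := sum_inv_sq y (1 + K * q) hy
  have h6 : ∑ e ∈ Ioc y (y + (1 + K * q)), 1 / (e : ℝ) ^ 2 ≤ 1 / (y : ℝ) := by
    have : (0 : ℝ) ≤ 1 / ((y : ℝ) + ((1 + K * q : ℕ) : ℝ)) := by positivity
    linarith
  have h7 : (1 + σ) * ∑ e ∈ Ioc y (y + (1 + K * q)), 1 / (e : ℝ) ^ 2 ≤ (1 + σ) * (1 / (y : ℝ)) :=
    mul_le_mul_of_nonneg_left h6 (by linarith)
  have h8 : (1 + σ) * (1 / (y : ℝ)) = (1 + σ) / y := by ring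
  rw [h8] at h7
  linarith

end Pool.Agent.H.MP_02f3ba_co.h16
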