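import Pool.Agent.H.MP_02f3ba_co.h16.Vc
import Pool.Agent.H.MP_02f3ba_co.h16.Tot
import Mathlib

/-! The choice of the parameters. -/

open Finset Filter Topology

namespace Pool.Agent.H.MP_02f3ba_co.h16

/-- Replacing `g` by the maximum of `g` and the identity keeps the divergence. -/
theorem not_summable_max {g : ℕ → ℝ} (hg : Monotone g) (hpos : ∀ d, 1 ≤ g d)
    (hs : ¬ Summable fun d => 1 / g d) : ¬ Summable fun d : ℕ => 1 / max (g d) (d : ℝ) := by
  intro hu
  have hupos : ∀ d : ℕ, 1 ≤ max (g d) (d : ℝ) := fun d => le_max_of_le_left (hpos d)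
  have humono : ∀ i j : ℕ, i ≤ j → max (g i) (i : ℝ) ≤ max (g j) (j : ℝ) := by
    intro i j hij
    exact max_le_max (hg hij) (by exact_mod_cast hij)
  -- the tails are small
  obtain ⟨s, hs1⟩ := summable_iff_vanishing_norm.1 hu (1 / 2) (by norm_num)
  by_cases hinf : ∃ N : ℕ, ∀ d, N ≤ d → (d : ℝ) ≤ g d
  · obtain ⟨N, hN⟩ := hinf
    apply hs
    rw [← summable_nat_add_iff N] at hu ⊢
    refine hu.congr fun d => ?_
    rw [max_eq_left (hN _ (Nat.le_add_left N d))]
  · push Not at hinf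
    obtain ⟨B, hB⟩ : ∃ B : ℕ, ∀ x ∈ s, x ≤ B := ⟨s.sup id, fun x hx => Finset.le_sup (f := id) hx⟩
    obtain ⟨D, hD, hgD⟩ := hinf (2 * B + 2)
    have hdis : Disjoint (Ioc (D / 2) D) s := by
      rw [Finset.disjoint_left]
      intro x hx hxs
      rw [mem_Ioc] at hx
      have := hB x hxs
      omega
    have h1 := hs1 _ hdis
    have h2 : (1 : ℝ) / 2 ≤ ∑ d ∈ Ioc (D / 2) D, 1 / max (g d) (d : ℝ) := by
      have hDpos : (0 : ℝ) < D := by
        have : 0 < D := by omega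
        exact_mod_cast this
      have h3 : ∀ d ∈ Ioc (D / 2) D, 1 / (D : ℝ) ≤ 1 / max (g d) (d : ℝ) := by
        intro d hd
        rw [mem_Ioc] at hd
        apply one_div_le_one_div_of_le (by linarith [hupos d])
        refine (humono d D hd.2).trans ?_
        rw [max_eq_right hgD.le]
      have h4 := Finset.card_nsmul_le_sum _ _ _ h3
      refine le_trans ?_ h4
      rw [Nat.card_Ioc, nsmul_eq_mul, mul_one_div, div_le_div_iff₀ (by norm_num) hDpos]
      have h5 : D ≤ (D - D / 2) * 2 := by omega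
      have h6 : (D : ℝ) ≤ ((D - D / 2 : ℕ) : ℝ) * 2 := by exact_mod_cast h5
      linarith
    have h3 : 0 ≤ ∑ d ∈ Ioc (D / 2) D, 1 / max (g d) (d : ℝ) := by linarith
    rw [Real.norm_eq_abs, abs_of_nonneg h3] at h1
    linarith

/-- Along a progression the sum still diverges. -/
theorem exists_prog {u : ℕ → ℝ} (hu : Monotone u) (hpos : ∀ d, 1 ≤ u d)
    (hs : ¬ Summable fun d => 1 / u d) {q : ℕ} (hq : 0 < q) (B : ℝ) :
    ∃ K : ℕ, B ≤ ∑ k ∈ Icc 1 K, 1 / u (1 + k * q) := by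
  have : NeZero q := ⟨hq.ne'⟩
  have hanti : Antitone fun d => 1 / u d := by
    intro a b hab
    exact one_div_le_one_div_of_le (by linarith [hpos a]) (hu hab)
  have h1 : ¬ Summable fun n => 1 / u (q * n + 1) := by
    intro h
    apply hs
    rw [← summable_indicator_mod_iff hanti ((1 : ℕ) : ZMod q)]
    rw [summable_indicator_mod_iff_summable q 1 (fun d => 1 / u d)]
    exact h
  have h2 : Tendsto (fun n => ∑ i ∈ range n, 1 / u (q * i + 1)) atTop atTop := by
    rw [← not_summable_iff_tendsto_nat_atTop_of_nonneg]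
    · exact h1
    · intro n
      have := hpos (q * n + 1)
      positivity
  obtain ⟨K, hK⟩ := (h2.eventually_ge_atTop (B + 1)).exists
  refine ⟨K, ?_⟩
  have h3 : ∑ i ∈ range K, 1 / u (q * i + 1) ≤ 1 + ∑ k ∈ Icc 1 K, 1 / u (1 + k * q) := by
    rcases Nat.eq_zero_or_pos K with rfl | hKp
    · simp
    · have h4 : range K ⊆ insert 0 (Icc 1 K) := by
        intro x hx
        rw [mem_range] at hx
        rw [mem_insert, mem_Icc]
        omega
      have h5 : ∑ i ∈ range K, 1 / u (q * i + 1) ≤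
          ∑ i ∈ insert 0 (Icc 1 K), 1 / u (q * i + 1) := by
        refine Finset.sum_le_sum_of_subset_of_nonneg h4 fun i _ _ => ?_
        have := hpos (q * i + 1)
        positivity
      rw [Finset.sum_insert (by rw [mem_Icc]; omega)] at h5
      have h6 : 1 / u (q * 0 + 1) ≤ 1 := by
        rw [div_le_one (by linarith [hpos (q * 0 + 1)])]
        exact hpos _
      have h7 : ∑ i ∈ Icc 1 K, 1 / u (q * i + 1) = ∑ k ∈ Icc 1 K, 1 / u (1 + k * q) := by
        refine Finset.sum_congr rfl fun i _ => ?_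
        rw [add_comm, mul_comm]
      linarith
  linarith

/-- The parameters: for every `ε` there are `M` and data with small exceptional set. -/
theorem exists_data {R : ℕ → ℝ} (hR : Monotone R) (hR1 : ∀ d, 1 ≤ R d)
    (hs : ¬ Summable fun d => 1 / R d ^ 2) {ε : ℝ} (hε : 0 < ε) :
    ∃ (M : ℝ) (D : Finset ℕ) (l : ℕ → ℕ), 0 < M ∧ (∀ d ∈ D, 2 ≤ d) ∧ (∀ d ∈ D, d ≤ l d) ∧
      (∀ d ∈ D, M * R d ^ 2 ≤ l d) ∧ 0 < ∑ d ∈ D, 1 / (l d : ℝ) ∧
      ∃ τ : ℝ, (∑ d ∈ D, 1 / (l d : ℝ)) - τ ≤ ∑ d ∈ D, (d.totient / d : ℝ) / l d ∧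
        2 * ((20 + 8 * τ) / (3 * ((∑ d ∈ D, 1 / (l d : ℝ)) / 3))) + 96 / M ≤ ε := by
  obtain ⟨M, hM⟩ := exists_nat_gt (192 / ε)
  have hM0 : (0 : ℝ) < M := lt_trans (by positivity) hM
  have hM1 : (1 : ℝ) ≤ M := by
    have : 0 < M := by exact_mod_cast hM0
    exact_mod_cast this
  obtain ⟨y, hy⟩ := exists_nat_gt (64 / ε)
  have hy0 : (0 : ℝ) < y := lt_trans (by positivity) hy
  have hy1 : 1 ≤ y := by exact_mod_cast hy0
  have hy1R : (1 : ℝ) ≤ y := by exact_mod_cast hy1
  set g : ℕ → ℝ := fun d => R d ^ 2 with hg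
  have hgmono : Monotone g := by
    intro a b hab
    simp only [hg]
    exact pow_le_pow_left₀ (by linarith [hR1 a]) (hR hab) 2
  have hg1 : ∀ d, 1 ≤ g d := by
    intro d
    simp only [hg]
    nlinarith [hR1 d]
  set u : ℕ → ℝ := fun d => max (g d) (d : ℝ) with hu
  have humono : Monotone u := by
    intro a b hab
    exact max_le_max (hgmono hab) (by exact_mod_cast hab)
  have hu1 : ∀ d, 1 ≤ u d := fun d => le_max_of_le_left (hg1 d)
  have hus : ¬ Summable fun d => 1 / u d := not_summable_max hgmono hg1 hs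
  set l : ℕ → ℕ := fun d => ⌈(M : ℝ) * u d⌉₊ with hl
  have hlu : ∀ d, (M : ℝ) * u d ≤ l d := fun d => Nat.le_ceil _
  have hMu : ∀ d, 1 ≤ (M : ℝ) * u d := fun d => by nlinarith [hu1 d]
  have hlu2 : ∀ d, (l d : ℝ) ≤ 2 * (M * u d) := by
    intro d
    have h1 : (l d : ℝ) < M * u d + 1 := Nat.ceil_lt_add_one (by linarith [hMu d])
    linarith [hMu d]
  have hlmono : ∀ i j, i ≤ j → l i ≤ l j := by
    intro i j hij
    apply Nat.ceil_mono
    exact mul_le_mul_of_nonneg_left (humono hij) hM0.le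
  have hle : ∀ i : ℕ, i ≤ l i := by
    intro i
    have h1 : (i : ℝ) ≤ u i := le_max_right _ _
    have h2 : (i : ℝ) ≤ l i := by
      refine le_trans ?_ (hlu i)
      nlinarith [hu1 i]
    exact_mod_cast h2
  obtain ⟨K, hK⟩ := exists_prog humono hu1 hus (Nat.factorial_pos y)
    (2 * M * (28 * 16 / ε + 1))
  set D := prog y K with hD
  have hsum : ∑ d ∈ D, 1 / (l d : ℝ) = ∑ k ∈ Icc 1 K, 1 / (l (1 + k * y.factorial) : ℝ) := by
    rw [hD, prog, Finset.sum_image]
    intro a _ b _ hab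
    exact prog_inj y hab
  set σ := ∑ d ∈ D, 1 / (l d : ℝ) with hσ
  have hσ1 : 28 * 16 / ε + 1 ≤ σ := by
    rw [hsum]
    have h1 : ∀ k ∈ Icc 1 K, 1 / (2 * (M : ℝ)) * (1 / u (1 + k * y.factorial)) ≤
        1 / (l (1 + k * y.factorial) : ℝ) := by
      intro k _
      rw [one_div_mul_one_div]
      apply one_div_le_one_div_of_le
      · linarith [hlu (1 + k * y.factorial), hMu (1 + k * y.factorial)]
      · rw [mul_assoc]
        exact hlu2 _
    have h2 := Finset.sum_le_sum h1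
    rw [← Finset.mul_sum] at h2
    refine le_trans ?_ h2
    rw [one_div, le_inv_mul_iff₀ (by positivity)]
    exact hK
  have hε1 : 0 < 28 * 16 / ε := by positivity
  have hσ0 : 0 < σ := by linarith
  refine ⟨M, D, l, hM0, ?_, fun d _ => hle d, ?_, hσ0, (1 + σ) / y, ?_, ?_⟩
  · intro d hd
    rw [hD, prog, mem_image] at hd
    obtain ⟨k, hk, rfl⟩ := hd
    rw [mem_Icc] at hk
    have := Nat.factorial_pos y
    have : 1 ≤ k * y.factorial := Nat.mul_pos (by omega) this
    omega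
  · intro d _
    refine le_trans ?_ (hlu d)
    exact mul_le_mul_of_nonneg_left (le_max_left _ _) hM0.le
  · exact tot_sum hlmono (fun i _ => hle i) hy1
  · have h1 : 96 / (M : ℝ) ≤ ε / 2 := by
      rw [div_le_iff₀ hM0]
      rw [div_lt_iff₀ hε] at hM
      linarith
    have h2 : 2 * ((20 + 8 * ((1 + σ) / y)) / (3 * (σ / 3))) ≤ ε / 2 := by
      have h3 : (1 + σ) / y ≤ 1 + σ * (ε / 64) := by
        rw [div_le_iff₀ hy0]
        have h4 : 64 ≤ y * ε := by
          rw [div_lt_iff₀ hε] at hy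
          exact hy.le
        nlinarith [mul_le_mul_of_nonneg_left h4 hσ0.le]
      have h5 : 3 * (σ / 3) = σ := by ring
      rw [h5]
      have h6 : 20 + 8 * ((1 + σ) / y) ≤ σ * (ε / 4) := by
        have h7 : 28 * 16 / ε ≤ σ := by linarith
        rw [div_le_iff₀ hε] at h7
        linarith
      have h8 : (20 + 8 * ((1 + σ) / y)) / σ ≤ ε / 4 := by
        rw [div_le_iff₀ hσ0]
        linarith
      linarith
    linarith

/-- Shattered sets are small. -/
theorem vc_small {h R : ℕ → ℝ} (hR : Monotone R) (hR1 : ∀ d, 1 ≤ R d)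
    (hhR : ∀ d, 1 ≤ d → h d ≤ R d)
    (hs : ¬ Summable fun d => 1 / R d ^ 2) {ε : ℝ} (hε : 0 < ε) :
    ∃ L0 : ℕ, ∀ L, L0 ≤ L → ∀ (T : Finset ℕ) (w : Finset ℕ → ℕ → ℝ), Sh h L T w →
      (T.card : ℝ) ≤ ε * L := by
  obtain ⟨M, D, l, hM, h2, hle, hMR, hσ, τ, hτ, hbd⟩ := exists_data hR hR1 hs hε
  refine ⟨(∑ d ∈ D, l d * d) + 1, fun L hL T w H => ?_⟩
  have hL0 : 0 < L := by omega
  have hprod : 0 < ∏ d ∈ D, (6 * d * l d) := by
    refine Finset.prod_pos fun d hd => ?_
    have h3 := h2 d hd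
    have h4 := hle d hd
    have h5 : 0 < l d := by omega
    positivity
  let X : Data := {
    D := D
    l := l
    Q := 2 * L * ∏ d ∈ D, (6 * d * l d)
    two_le := h2
    le_l := hle
    Qpos := by positivity
    dvd := fun d hd => Dvd.dvd.mul_left (Finset.dvd_prod_of_mem _ hd) _ }
  have hsg : X.sg = ∑ d ∈ D, 1 / (l d : ℝ) := rfl
  have h3 := X.card_exc (τ := τ) (m := X.sg / 3) rfl (by rw [hsg]; positivity) (by rw [hsg]; exact hτ)
  have h4 := H.card_le hL0 X (M := M) (m := X.sg / 3) hM rfl (by rw [hsg]; positivity) ?_ ?_ ?_ h3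
  · refine h4.trans ?_
    rw [hsg]
    exact mul_le_mul_of_nonneg_right hbd (Nat.cast_nonneg L)
  · intro d hd
    refine le_trans ?_ (hMR d hd)
    have h5 : 1 ≤ d := by
      have := h2 d hd
      omega
    have h6 : 0 ≤ h d := by
      have h7 := H.ap ∅ (Finset.empty_mem_powerset T) 0 d 0 h5 (by intro k hk; omega)
      exact (abs_nonneg _).trans h7
    exact mul_le_mul_of_nonneg_left (pow_le_pow_left₀ h6 (hhR d h5) 2) hM.le
  · intro d hd
    have h5 : l d * d ≤ ∑ d ∈ D, l d * d :=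
      Finset.single_le_sum (f := fun d => l d * d) (fun _ _ => Nat.zero_le _) hd
    change l d * d ≤ L
    omega
  · change 2 * L ≤ 2 * L * ∏ d ∈ D, (6 * d * l d)
    exact Nat.le_mul_of_pos_right _ hprod

end Pool.Agent.H.MP_02f3ba_co.h16
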