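import Pool.Agent.H.MP_02f3ba_co.h16.Stage2
import Pool.Agent.H.MP_02f3ba_co.Limit
import Mathlib

/-! A sequence of positive entropy obeying the bound `O(sqrt d (1 + log d) ^ (5/2))`. -/

namespace Pool.Agent.H.MP_02f3ba_co.h16

open Finset Filter Polynomial Pool.Agent.H.MP_02f3ba_co

attribute [local irreducible] Hw

section

variable {T : ℕ} {x : (ℕ → ℝ) → ℕ → ℝ}

theorem innov_sq (hx2 : ∀ y n, |x y n| ≤ 1 / 2) (ω : Fin T → Bool) (n : ℕ) :
    1 / 4 ≤ innov x ω n ^ 2 := by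
  have h1 := abs_le.1 (hx2 (path ω) n)
  unfold innov
  rcases path_sign ω n with h | h
  · rw [h]
    nlinarith
  · rw [h]
    nlinarith

/-- A prefix of length `s` has weight at most `exp (-s / 20)`. -/
theorem prefix_le (hx : Causal x) (hx2 : ∀ y n, |x y n| ≤ 1 / 2) {μ : (Fin T → Bool) → ℝ} {κ α : ℝ}
    (hμ : IsGood μ (innov x) (Finset.Ico 0 T) κ α) (hκ : κ ≤ 5 / 4) {s : ℕ} (hs : s ≤ T)
    (ω₀ : Fin T → Bool) (F : Finset (Fin T → Bool)) (hF : ∀ ω ∈ F, Agree s ω ω₀) :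
    ∑ ω ∈ F, μ ω ≤ Real.exp (-(s : ℝ) / 20) := by
  set c : ℕ → ℝ := fun i => if i < s then 2 / 5 * innov x ω₀ i else 0 with hc
  set E : ℝ := ∑ i ∈ Ico 0 T, (if i < s then innov x ω₀ i ^ 2 else 0) with hE
  have h1 := hμ.sg c
  have h2 : ∀ ω ∈ F, ∑ i ∈ Ico 0 T, c i * innov x ω i = 2 / 5 * E := by
    intro ω hω
    rw [hE, Finset.mul_sum]
    refine Finset.sum_congr rfl fun i _ => ?_
    simp only [hc]
    split_ifs with his
    · rw [(hF ω hω).innov hx i his]
      ring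
    · ring
  have h3 : ∑ i ∈ Ico 0 T, c i ^ 2 = 4 / 25 * E := by
    rw [hE, Finset.mul_sum]
    refine Finset.sum_congr rfl fun i _ => ?_
    simp only [hc]
    split_ifs with his
    · ring
    · ring
  have h4 : (s : ℝ) / 4 ≤ E := by
    have h5 : ∑ i ∈ Ico 0 T, (if i < s then (1 / 4 : ℝ) else 0) ≤ E := by
      refine Finset.sum_le_sum fun i _ => ?_
      split_ifs with his
      · exact innov_sq hx2 ω₀ i
      · exact le_rfl
    refine le_trans (le_of_eq ?_) h5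
    rw [← Finset.sum_filter, Finset.sum_const, nsmul_eq_mul]
    have h6 : (Ico 0 T).filter (fun i => i < s) = range s := by
      ext i
      rw [mem_filter, mem_Ico, mem_range]
      omega
    rw [h6, card_range]
    ring
  have hE0 : 0 ≤ E := le_trans (by positivity) h4
  have h5 : (∑ ω ∈ F, μ ω) * Real.exp (2 / 5 * E) ≤ Real.exp (5 / 4 * (4 / 25 * E)) := by
    calc (∑ ω ∈ F, μ ω) * Real.exp (2 / 5 * E)
        = ∑ ω ∈ F, μ ω * Real.exp (∑ i ∈ Ico 0 T, c i * innov x ω i) := by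
          rw [Finset.sum_mul]
          refine Finset.sum_congr rfl fun ω hω => ?_
          rw [h2 ω hω]
      _ ≤ ∑ ω, μ ω * Real.exp (∑ i ∈ Ico 0 T, c i * innov x ω i) := by
          refine Finset.sum_le_sum_of_subset_of_nonneg (Finset.subset_univ _) fun ω _ _ => ?_
          exact mul_nonneg (hμ.nonneg ω) (Real.exp_pos _).le
      _ ≤ Real.exp (κ * ∑ i ∈ Ico 0 T, c i ^ 2) := h1
      _ ≤ Real.exp (5 / 4 * (4 / 25 * E)) := by
          rw [h3]
          apply Real.exp_le_exp.2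
          exact mul_le_mul_of_nonneg_right hκ (by positivity)
  have h6 : ∑ ω ∈ F, μ ω ≤ Real.exp (5 / 4 * (4 / 25 * E)) / Real.exp (2 / 5 * E) := by
    rw [le_div_iff₀ (Real.exp_pos _)]
    exact h5
  refine h6.trans ?_
  rw [← Real.exp_sub]
  apply Real.exp_le_exp.2
  linarith

/-- The blocks of length `n` of a bit string. -/
def blk (ω : Fin T → Bool) (n M : ℕ) : Fin M → (Fin n → Bool) :=
  fun j i => if h : (j : ℕ) * n + i < T then ω ⟨j * n + i, h⟩ else false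

end

theorem card_few {B : Type*} [Fintype B] [DecidableEq B] (M A : ℕ) :
    ((univ : Finset (Fin M → B)).filter (fun v => (univ.image v).card ≤ A)).card ≤
      2 ^ Fintype.card B * A ^ M := by
  have h1 : (univ : Finset (Fin M → B)).filter (fun v => (univ.image v).card ≤ A) ⊆
      ((univ : Finset B).powerset.filter (fun S => S.card ≤ A)).biUnion
        (fun S => Fintype.piFinset fun _ : Fin M => S) := by
    intro v hv
    rw [mem_filter] at hv
    rw [mem_biUnion]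
    refine ⟨univ.image v, ?_, ?_⟩
    · rw [mem_filter]
      exact ⟨Finset.mem_powerset.2 (Finset.subset_univ _), hv.2⟩
    · rw [Fintype.mem_piFinset]
      intro j
      exact Finset.mem_image_of_mem v (Finset.mem_univ j)
  refine (Finset.card_le_card h1).trans ?_
  refine Finset.card_biUnion_le.trans ?_
  have h2 : ∀ S ∈ (univ : Finset B).powerset.filter (fun S => S.card ≤ A),
      (Fintype.piFinset fun _ : Fin M => S).card ≤ A ^ M := by
    intro S hS
    rw [mem_filter] at hS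
    rw [Fintype.card_piFinset, Finset.prod_const, Finset.card_univ, Fintype.card_fin]
    exact Nat.pow_le_pow_left hS.2 M
  refine (Finset.sum_le_sum h2).trans ?_
  rw [Finset.sum_const, smul_eq_mul]
  apply Nat.mul_le_mul_right
  refine (Finset.card_filter_le _ _).trans ?_
  rw [Finset.card_powerset, Finset.card_univ]

theorem exists_M (n : ℕ) (hn : 1 ≤ n) : ∃ M : ℕ,
    (2 : ℝ) ^ (2 ^ n) * (⌊Real.exp ((n : ℝ) / 40)⌋₊ : ℝ) ^ M *
      Real.exp (-((n * M : ℕ) : ℝ) / 20) ≤ (1 / 2) ^ (n + 1) := by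
  have hnR : (0 : ℝ) < n := by exact_mod_cast hn
  have hr : Real.exp (-(n : ℝ) / 40) < 1 := by
    rw [Real.exp_lt_one_iff]
    apply div_neg_of_neg_of_pos
    · linarith
    · norm_num
  obtain ⟨M, hM⟩ := exists_pow_lt_of_lt_one
    (show (0 : ℝ) < (1 / 2) ^ (n + 1) / 2 ^ (2 ^ n) by positivity) hr
  refine ⟨M, ?_⟩
  have h1 : (⌊Real.exp ((n : ℝ) / 40)⌋₊ : ℝ) ^ M ≤ Real.exp ((n : ℝ) / 40) ^ M :=
    pow_le_pow_left₀ (Nat.cast_nonneg _) (Nat.floor_le (Real.exp_pos _).le) M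
  have h2 : Real.exp ((n : ℝ) / 40) ^ M * Real.exp (-((n * M : ℕ) : ℝ) / 20) =
      Real.exp (-(n : ℝ) / 40) ^ M := by
    rw [← Real.exp_nat_mul, ← Real.exp_nat_mul, ← Real.exp_add]
    congr 1
    push_cast
    ring
  rw [lt_div_iff₀ (by positivity)] at hM
  calc (2 : ℝ) ^ (2 ^ n) * (⌊Real.exp ((n : ℝ) / 40)⌋₊ : ℝ) ^ M *
        Real.exp (-((n * M : ℕ) : ℝ) / 20)
      ≤ (2 : ℝ) ^ (2 ^ n) * Real.exp ((n : ℝ) / 40) ^ M *
        Real.exp (-((n * M : ℕ) : ℝ) / 20) := by gcongr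
    _ = Real.exp (-(n : ℝ) / 40) ^ M * (2 : ℝ) ^ (2 ^ n) := by
        rw [mul_assoc, h2]
        ring
    _ ≤ (1 / 2) ^ (n + 1) := hM.le

theorem sum_biUnion_le_sum {ι Ω : Type*} [DecidableEq ι] [DecidableEq Ω] (I : Finset ι)
    (bad : ι → Finset Ω) (μ : Ω → ℝ) (hμ : ∀ ω, 0 ≤ μ ω) :
    ∑ ω ∈ I.biUnion bad, μ ω ≤ ∑ n ∈ I, ∑ ω ∈ bad n, μ ω := by
  induction I using Finset.induction_on with
  | empty => simp
  | insert a s ha ih =>
    rw [Finset.biUnion_insert, Finset.sum_insert ha]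
    have h1 := Finset.sum_union_inter (s₁ := bad a) (s₂ := s.biUnion bad) (f := μ)
    have h2 : 0 ≤ ∑ ω ∈ bad a ∩ s.biUnion bad, μ ω := Finset.sum_nonneg fun ω _ => hμ ω
    linarith

/-- The union bound: a path of the support has many blocks of every length. -/
theorem exists_rich {T : ℕ} {x : (ℕ → ℝ) → ℕ → ℝ} (hx : Causal x)
    (hx2 : ∀ y n, |x y n| ≤ 1 / 2) {μ : (Fin T → Bool) → ℝ} {κ α : ℝ}
    (hμ : IsGood μ (innov x) (Finset.Ico 0 T) κ α) (hκ : κ ≤ 5 / 4) (M : ℕ → ℕ)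
    (hM : ∀ n : ℕ, 1 ≤ n → (2 : ℝ) ^ (2 ^ n) * (⌊Real.exp ((n : ℝ) / 40)⌋₊ : ℝ) ^ M n *
      Real.exp (-((n * M n : ℕ) : ℝ) / 20) ≤ (1 / 2) ^ (n + 1)) :
    ∃ ω, μ ω ≠ 0 ∧ ∀ n, 1 ≤ n → n ≤ T → n * M n ≤ T →
      ⌊Real.exp ((n : ℝ) / 40)⌋₊ < (univ.image (blk ω n (M n))).card := by
  classical
  by_contra hcon
  push Not at hcon
  -- the bad sets
  set bad : ℕ → Finset (Fin T → Bool) := fun n =>
    univ.filter fun ω => (univ.image (blk ω n (M n))).card ≤ ⌊Real.exp ((n : ℝ) / 40)⌋₊ with hbad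
  set I : Finset ℕ := (Icc 1 T).filter fun n => n * M n ≤ T with hI
  have h1 : ∀ n ∈ I, ∑ ω ∈ bad n, μ ω ≤ (1 / 2) ^ (n + 1) := by
    intro n hn
    rw [hI, mem_filter, mem_Icc] at hn
    refine le_trans ?_ (hM n hn.1.1)
    set A := ⌊Real.exp ((n : ℝ) / 40)⌋₊ with hA
    set V : Finset (Fin (M n) → (Fin n → Bool)) :=
      univ.filter (fun v => (univ.image v).card ≤ A) with hV
    have h2 : ∀ ω ∈ bad n, blk ω n (M n) ∈ V := by
      intro ω hω
      rw [hbad] at hω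
      simp only [mem_filter] at hω
      rw [hV, mem_filter]
      exact ⟨mem_univ _, hω.2⟩
    rw [← Finset.sum_fiberwise_of_maps_to h2]
    have h3 : ∀ v ∈ V, ∑ ω ∈ (bad n).filter (fun ω => blk ω n (M n) = v), μ ω ≤
        Real.exp (-((n * M n : ℕ) : ℝ) / 20) := by
      intro v _
      rcases ((bad n).filter (fun ω => blk ω n (M n) = v)).eq_empty_or_nonempty with h4 | ⟨ω₀, h4⟩
      · rw [h4, Finset.sum_empty]
        exact (Real.exp_pos _).le
      · apply prefix_le hx hx2 hμ hκ hn.2 ω₀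
        intro ω hω
        rw [mem_filter] at hω h4
        intro m hm
        have h5 : blk ω n (M n) = blk ω₀ n (M n) := by rw [hω.2, h4.2]
        have hn0 : 0 < n := by omega
        have h6 : (m : ℕ) / n < M n := by
          rw [Nat.div_lt_iff_lt_mul hn0, mul_comm]
          exact hm
        have h7 := congrFun (congrFun h5 ⟨(m : ℕ) / n, h6⟩) ⟨(m : ℕ) % n, Nat.mod_lt _ hn0⟩
        unfold blk at h7
        have h8 : (m : ℕ) / n * n + (m : ℕ) % n = m := Nat.div_add_mod' _ _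
        simp only [h8, m.2, dif_pos] at h7
        exact h7
    refine (Finset.sum_le_sum h3).trans ?_
    rw [Finset.sum_const, nsmul_eq_mul]
    apply mul_le_mul_of_nonneg_right _ (Real.exp_pos _).le
    have h4 := card_few (B := Fin n → Bool) (M n) A
    have h5 : Fintype.card (Fin n → Bool) = 2 ^ n := by simp
    rw [h5] at h4
    exact_mod_cast h4
  have h2 : (1 : ℝ) ≤ ∑ n ∈ I, ∑ ω ∈ bad n, μ ω := by
    calc (1 : ℝ) = ∑ ω, μ ω := hμ.sum_one.symm
      _ = ∑ ω ∈ univ.filter (fun ω => μ ω ≠ 0), μ ω := by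
          rw [Finset.sum_filter_ne_zero]
      _ ≤ ∑ ω ∈ I.biUnion bad, μ ω := by
          refine Finset.sum_le_sum_of_subset_of_nonneg ?_ fun ω _ _ => hμ.nonneg ω
          intro ω hω
          rw [mem_filter] at hω
          obtain ⟨n, hn1, hnT, hnM, hle⟩ := hcon ω hω.2
          rw [mem_biUnion]
          refine ⟨n, ?_, ?_⟩
          · rw [hI, mem_filter, mem_Icc]
            exact ⟨⟨hn1, hnT⟩, hnM⟩
          · rw [hbad]
            simp only [mem_filter]
            exact ⟨mem_univ _, hle⟩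
      _ ≤ ∑ n ∈ I, ∑ ω ∈ bad n, μ ω := by
          exact sum_biUnion_le_sum I bad μ hμ.nonneg
  have h3 : ∑ n ∈ I, ∑ ω ∈ bad n, μ ω ≤ 1 / 2 := by
    refine (Finset.sum_le_sum h1).trans ?_
    have h4 : ∑ n ∈ I, ((1 : ℝ) / 2) ^ (n + 1) ≤ ∑ n ∈ Icc 1 T, ((1 : ℝ) / 2) ^ (n + 1) := by
      refine Finset.sum_le_sum_of_subset_of_nonneg (Finset.filter_subset _ _) fun n _ _ => ?_
      positivity
    refine h4.trans ?_
    have h5 : ∀ T : ℕ, ∑ n ∈ Icc 1 T, ((1 : ℝ) / 2) ^ (n + 1) = 1 / 2 - (1 / 2) ^ (T + 1) := by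
      intro T
      induction T with
      | zero => norm_num
      | succ T ih =>
        rw [Finset.sum_Icc_succ_top (by omega), ih]
        ring
    rw [h5]
    have : (0 : ℝ) ≤ (1 / 2) ^ (T + 1) := by positivity
    linarith
  linarith

end Pool.Agent.H.MP_02f3ba_co.h16
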