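import Pool.Agent.H.MP_02f3ba_co.h16.Param
import Mathlib

/-! From shattered sets to the number of words. -/

open Finset Filter Topology

namespace Pool.Agent.H.MP_02f3ba_co.h16

theorem card_le_vc {L : ℕ} (F : Finset (Finset (Fin L))) {x : ℝ} (hx : 0 < x) (hx1 : x ≤ 1) :
    (F.card : ℝ) ≤ (x⁻¹) ^ F.vcDim * (1 + x) ^ L := by
  have h1 : F.card ≤ ∑ k ∈ Iic F.vcDim, L.choose k := by
    have h2 := (Finset.card_le_card_shatterer F).trans (Finset.card_shatterer_le_sum_vcDim)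
    simpa using h2
  have h2 : (F.card : ℝ) ≤ ∑ k ∈ Iic F.vcDim, (L.choose k : ℝ) := by exact_mod_cast h1
  refine h2.trans ?_
  rw [add_comm 1 x, add_pow, Finset.mul_sum]
  have hxi : 1 ≤ x⁻¹ := (one_le_inv₀ hx).2 hx1
  calc ∑ k ∈ Iic F.vcDim, (L.choose k : ℝ)
      ≤ ∑ k ∈ Iic F.vcDim, (x⁻¹) ^ F.vcDim * (x ^ k * 1 ^ (L - k) * (L.choose k)) := by
        refine Finset.sum_le_sum fun k hk => ?_
        rw [mem_Iic] at hk
        rw [one_pow, mul_one, ← mul_assoc]
        have h3 : 1 ≤ (x⁻¹) ^ F.vcDim * x ^ k := by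
          have h4 : (x⁻¹) ^ k * x ^ k = 1 := by
            rw [← mul_pow, inv_mul_cancel₀ hx.ne', one_pow]
          rw [← h4]
          exact mul_le_mul_of_nonneg_right (pow_le_pow_right₀ hxi hk) (by positivity)
        nlinarith [(Nat.cast_nonneg (L.choose k) : (0 : ℝ) ≤ (L.choose k : ℝ))]
    _ ≤ ∑ k ∈ range (L + 1), (x⁻¹) ^ F.vcDim * (x ^ k * 1 ^ (L - k) * (L.choose k)) := by
        rw [← Finset.sum_filter_of_ne (p := fun k => k ∈ range (L + 1))]
        · refine Finset.sum_le_sum_of_subset_of_nonneg ?_ fun k _ _ => by positivity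
          intro k hk
          exact (mem_filter.1 hk).2
        · intro k _ hk
          rw [mem_range]
          by_contra h3
          apply hk
          rw [Nat.choose_eq_zero_of_lt (by omega)]
          simp

/-- A family with small shattered sets is small. -/
theorem card_le_two_pow {ε : ℝ} (hε : 0 < ε) :
    ∃ η : ℝ, 0 < η ∧ ∀ (L : ℕ) (F : Finset (Finset (Fin L))), (F.vcDim : ℝ) ≤ η * L →
      (F.card : ℝ) ≤ 2 ^ (ε * L) := by
  -- choose x
  have h1 : (1 : ℝ) < 2 ^ (ε / 2) := Real.one_lt_rpow (by norm_num) (by positivity)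
  obtain ⟨x, hx0, hx1, hx2⟩ : ∃ x : ℝ, 0 < x ∧ x < 1 ∧ 1 + x ≤ 2 ^ (ε / 2) := by
    refine ⟨min (1 / 2) (2 ^ (ε / 2) - 1), lt_min (by norm_num) (by linarith), ?_, ?_⟩
    · exact lt_of_le_of_lt (min_le_left _ _) (by norm_num)
    · linarith [min_le_right (1 / 2 : ℝ) (2 ^ (ε / 2) - 1)]
  have hxi : 1 < x⁻¹ := (one_lt_inv₀ hx0).2 hx1
  have hlog : 0 < Real.log x⁻¹ := Real.log_pos hxi
  have hlog2 : 0 < Real.log 2 := Real.log_pos (by norm_num)
  refine ⟨ε / 2 * Real.log 2 / Real.log x⁻¹, by positivity, fun L F hF => ?_⟩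
  refine (card_le_vc F hx0 hx1.le).trans ?_
  have h2 : (x⁻¹) ^ F.vcDim ≤ (2 : ℝ) ^ (ε / 2 * L) := by
    rw [← Real.rpow_natCast]
    refine (Real.rpow_le_rpow_of_exponent_le hxi.le hF).trans ?_
    rw [← Real.exp_log (show 0 < x⁻¹ by positivity), ← Real.exp_mul,
      ← Real.exp_log (show (0 : ℝ) < 2 by norm_num), ← Real.exp_mul, Real.log_exp, Real.log_exp]
    rw [Real.exp_le_exp]
    apply le_of_eq
    generalize Real.log x⁻¹ = c at hlog
    field_simp
  have h3 : (1 + x) ^ L ≤ (2 : ℝ) ^ (ε / 2 * L) := by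
    rw [Real.rpow_mul (by norm_num), Real.rpow_natCast]
    exact pow_le_pow_left₀ (by linarith) hx2 L
  calc (x⁻¹) ^ F.vcDim * (1 + x) ^ L ≤ (2 : ℝ) ^ (ε / 2 * L) * (2 : ℝ) ^ (ε / 2 * L) := by
        gcongr
    _ = 2 ^ (ε * L) := by
        rw [← Real.rpow_add (by norm_num)]
        congr 1
        ring

/-- The word of a set. -/
def wordOf {L : ℕ} (P : Finset (Fin L)) : Fin L → ℤ := fun i => if i ∈ P then 1 else -1

theorem wordOf_eq {L : ℕ} {w : Fin L → ℤ} (hw : ∀ i, w i = 1 ∨ w i = -1) :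
    wordOf (univ.filter fun i => w i = 1) = w := by
  funext i
  unfold wordOf
  rcases hw i with h | h
  · rw [if_pos (mem_filter.2 ⟨mem_univ i, h⟩), h]
  · rw [if_neg, h]
    intro h3
    have h2 := (mem_filter.1 h3).2
    rw [h] at h2
    norm_num at h2

/-- The words obeying `h`. -/
def Good (h : ℕ → ℝ) (L : ℕ) (w : Fin L → ℤ) : Prop :=
  (∀ i, w i = 1 ∨ w i = -1) ∧ ∀ a d N : ℕ, 1 ≤ d →
    |((∑ i ∈ univ.filter (fun i : Fin L => ∃ k < N, (i : ℕ) = a + k * d), w i : ℤ) : ℝ)| ≤ h d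

/-- Progressions inside the window. -/
theorem sum_window {L : ℕ} (g : Fin L → ℤ) (f : ℕ → ℝ) (hf : ∀ i : Fin L, f i = g i) {a d N : ℕ}
    (hd : 1 ≤ d) (hin : ∀ k < N, a + k * d < L) :
    ∑ k ∈ range N, f (a + k * d) =
      ((∑ i ∈ univ.filter (fun i : Fin L => ∃ k < N, (i : ℕ) = a + k * d), g i : ℤ) : ℝ) := by
  push_cast
  symm
  refine Finset.sum_bij' (fun (i : Fin L) _ => ((i : ℕ) - a) / d)
    (fun k hk => ⟨a + k * d, hin k (mem_range.1 hk)⟩) ?_ ?_ ?_ ?_ ?_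
  · intro i hi
    rw [mem_filter] at hi
    obtain ⟨-, k, hk, hik⟩ := hi
    rw [mem_range, hik, Nat.add_sub_cancel_left, Nat.mul_div_cancel _ (by omega)]
    exact hk
  · intro k hk
    rw [mem_filter]
    exact ⟨mem_univ _, k, mem_range.1 hk, rfl⟩
  · intro i hi
    rw [mem_filter] at hi
    obtain ⟨-, k, hk, hik⟩ := hi
    apply Fin.ext
    simp only
    rw [hik, Nat.add_sub_cancel_left, Nat.mul_div_cancel _ (by omega)]
  · intro k hk
    simp only
    rw [Nat.add_sub_cancel_left, Nat.mul_div_cancel _ (by omega)]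
  · intro i hi
    rw [mem_filter] at hi
    obtain ⟨-, k, hk, hik⟩ := hi
    have h1 : a + ((i : ℕ) - a) / d * d = i := by
      rw [hik, Nat.add_sub_cancel_left, Nat.mul_div_cancel _ (by omega)]
    rw [h1, hf]

/-- A shattered family of words gives the structure `Sh`. -/
theorem exists_Sh {h : ℕ → ℝ} {L : ℕ} {F : Finset (Finset (Fin L))}
    (hF : ∀ P ∈ F, Good h L (wordOf P)) {s : Finset (Fin L)} (hs : F.Shatters s) :
    ∃ w : Finset ℕ → ℕ → ℝ, Sh h L (s.map Fin.valEmbedding) w := by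
  classical
  set T := s.map Fin.valEmbedding with hT
  have h1 : ∀ S : Finset ℕ, ∃ P : Finset (Fin L), P ∈ F ∧ ∀ i ∈ s, (i ∈ P ↔ (i : ℕ) ∈ S) := by
    intro S
    obtain ⟨P, hP, hsP⟩ := hs (Finset.filter_subset (fun i : Fin L => (i : ℕ) ∈ S) s)
    refine ⟨P, hP, fun i hi => ?_⟩
    constructor
    · intro hiP
      have h2 : i ∈ s ∩ P := mem_inter.2 ⟨hi, hiP⟩
      rw [hsP, mem_filter] at h2
      exact h2.2
    · intro hiS
      have h2 : i ∈ s.filter (fun i : Fin L => (i : ℕ) ∈ S) := mem_filter.2 ⟨hi, hiS⟩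
      rw [← hsP] at h2
      exact (mem_inter.1 h2).2
  choose P hP hPs using h1
  refine ⟨fun S n => if hn : n < L then (wordOf (P S) ⟨n, hn⟩ : ℝ) else 0, ?_, ?_, ?_, ?_⟩
  · intro x hx
    rw [hT, Finset.mem_map] at hx
    obtain ⟨i, _, rfl⟩ := hx
    rw [mem_range]
    exact i.2
  · intro S _ n hn
    simp only [hn, dif_pos]
    rcases (hF _ (hP S)).1 ⟨n, hn⟩ with h2 | h2 <;> rw [h2] <;> norm_num
  · intro S _ t ht
    rw [hT, Finset.mem_map] at ht
    obtain ⟨i, hi, rfl⟩ := ht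
    have h2 : (Fin.valEmbedding i) < L := i.2
    simp only [h2, dif_pos]
    have h3 := hPs S i hi
    unfold wordOf chi
    have h4 : (⟨Fin.valEmbedding i, h2⟩ : Fin L) = i := rfl
    rw [h4]
    have h5 : (Fin.valEmbedding i : ℕ) = (i : ℕ) := rfl
    rw [h5]
    by_cases h6 : i ∈ P S
    · rw [if_pos h6, if_pos (h3.1 h6)]
      norm_num
    · rw [if_neg h6, if_neg (fun h7 => h6 (h3.2 h7))]
      norm_num
  · intro S _ a d N hd hin
    have h2 := (hF _ (hP S)).2 a d N hd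
    rw [← sum_window (wordOf (P S))
      (fun n => if hn : n < L then (wordOf (P S) ⟨n, hn⟩ : ℝ) else 0) ?_ hd hin] at h2
    · exact h2
    · intro i
      have h3 : (i : ℕ) < L := i.2
      simp only [h3, dif_pos]

/-- The number of words. -/
theorem ncard_words_le {h R : ℕ → ℝ} (hR : Monotone R) (hR1 : ∀ d, 1 ≤ R d)
    (hhR : ∀ d, 1 ≤ d → h d ≤ R d)
    (hs : ¬ Summable fun d => 1 / R d ^ 2) {ε : ℝ} (hε : 0 < ε) :
    ∃ L0 : ℕ, ∀ L, L0 ≤ L → ({w | Good h L w}.ncard : ℝ) ≤ 2 ^ (ε * L) := by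
  classical
  obtain ⟨η, hη, hη1⟩ := card_le_two_pow hε
  obtain ⟨L0, hL0⟩ := vc_small hR hR1 hhR hs hη
  refine ⟨L0, fun L hL => ?_⟩
  set F : Finset (Finset (Fin L)) := univ.filter (fun P => Good h L (wordOf P)) with hF
  have h1 : {w | Good h L w} ⊆ ((F.image wordOf : Finset (Fin L → ℤ)) : Set (Fin L → ℤ)) := by
    intro w hw
    rw [Set.mem_setOf_eq] at hw
    rw [Finset.mem_coe, mem_image]
    refine ⟨univ.filter fun i => w i = 1, ?_, wordOf_eq hw.1⟩
    rw [hF, mem_filter]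
    refine ⟨mem_univ _, ?_⟩
    rw [wordOf_eq hw.1]
    exact hw
  have h2 : {w | Good h L w}.ncard ≤ F.card := by
    refine (Set.ncard_le_ncard h1 (Finset.finite_toSet _)).trans ?_
    rw [Set.ncard_coe_finset]
    exact Finset.card_image_le
  have h3 : (F.vcDim : ℝ) ≤ η * L := by
    unfold Finset.vcDim
    obtain hemp | hne := F.shatterer.eq_empty_or_nonempty
    · rw [hemp]
      simp only [Finset.sup_empty, Nat.bot_eq_zero, Nat.cast_zero]
      positivity
    · obtain ⟨s, hs1, hs2⟩ := Finset.exists_mem_eq_sup F.shatterer hne card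
      rw [hs2]
      rw [mem_shatterer] at hs1
      obtain ⟨w, hw⟩ := exists_Sh (h := h) (fun P hP => (mem_filter.1 hP).2) hs1
      have h4 := hL0 L hL _ w hw
      rwa [card_map] at h4
  have h4 := hη1 L F h3
  refine le_trans ?_ h4
  exact_mod_cast h2

end Pool.Agent.H.MP_02f3ba_co.h16
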