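import Pool.Agent.H.MP_02f3ba_co.Stage

/-!
# One stage, for every path passing the tests
-/

namespace Pool.Agent.H.MP_02f3ba_co.h16

open Finset Polynomial Pool.Agent.H.MP_02f3ba_co

attribute [local irreducible] Hw

/-- The bound of one stage holds for every path that passes all the tests. -/
theorem stage_of_tests (K : ℕ) (y : ℕ → ℝ)
    (htest : ∀ k ≤ K + 1, 1 ≤ k → ∀ i, (i + 1) * Lw k ≤ Lw (K + 1) → ∀ l < Nw k,
      |∑ m ∈ Finset.Ico (i * Lw k) ((i + 1) * Lw k),
        cw k i l m * (y m - pred (AA (K + 1) - 1) y m)| ≤ bw k) :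
    ∀ d, 1 ≤ d → k1 d ≤ K → ∀ a N, a + N * d < Hw K →
      |∑ i ∈ Finset.range N, y (a + i * d)| ≤
        2 * (526 * (Real.sqrt (Ed d) * Real.sqrt ((Nat.log 2 d : ℝ) + 1))) := by
  set T : ℝ[X] := AA (K + 1) - 1 with hT
  set e : ℕ → ℝ := fun m => y m - pred T y m with he
  -- every kernel of every level gives a small convolution
  have hker : ∀ k ≤ K, ∀ d < 2 ^ (k + 1), ∀ t < Hw K,
      |conv (ker k d) e t| ≤ 2 * (25 * Real.sqrt ((k : ℝ) + 1) * Real.sqrt (nu2 k d)) := by
    intro k hk d hd t ht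
    have hdvd : Hw k ∣ Hw K := by
      unfold Hw
      exact pow_dvd_pow _ (by omega)
    obtain ⟨R, hR⟩ := hdvd
    have ht2 : t < R * Hw k := by
      rw [mul_comm, ← hR]
      exact ht
    have hB0 : 0 ≤ 25 * Real.sqrt ((k : ℝ) + 1) * Real.sqrt (nu2 k d) := by positivity
    refine conv_bound (ker k d) e (Hw k) R t (natDegree_ker k d) ht2 hB0 ?_
    intro i hi t' ht'
    have hl : t' * 2 ^ (k + 1) + d < Nw (k + 1) := by
      simp only [Nw]
      calc t' * 2 ^ (k + 1) + d < t' * 2 ^ (k + 1) + 2 ^ (k + 1) := by omega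
        _ = (t' + 1) * 2 ^ (k + 1) := by ring
        _ ≤ 2 * Hw k * 2 ^ (k + 1) := Nat.mul_le_mul_right _ (by omega)
    have hdiv : (t' * 2 ^ (k + 1) + d) / 2 ^ (k + 1) = t' := by
      rw [mul_comm, Nat.mul_add_div (by positivity), Nat.div_eq_of_lt hd, add_zero]
    have hmod : (t' * 2 ^ (k + 1) + d) % 2 ^ (k + 1) = d := by
      rw [mul_comm, Nat.mul_add_mod, Nat.mod_eq_of_lt hd]
    have h1 := htest (k + 1) (by omega) (by omega) i (by
      simp only [Lw]
      rw [hR, mul_comm (Hw k) R]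
      exact Nat.mul_le_mul_right _ hi) _ hl
    simp only [cw, hdiv, hmod, Lw] at h1
    have h2 : ∑ m ∈ Finset.Ico (i * Hw k) ((i + 1) * Hw k),
        (if m ≤ i * Hw k + t' then (ker k d).coeff (i * Hw k + t' - m) * e m else 0) =
        Real.sqrt (nu2 k d) * ∑ m ∈ Finset.Ico (i * Hw k) ((i + 1) * Hw k),
          (if m ≤ i * Hw k + t' then (ker k d).coeff (i * Hw k + t' - m) /
            Real.sqrt (nu2 k d) else 0) * (y m - pred T y m) := by
      rw [Finset.mul_sum]
      apply Finset.sum_congr rfl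
      intro m _
      have hs : Real.sqrt (nu2 k d) ≠ 0 := (Real.sqrt_pos.mpr (nu2_pos k d)).ne'
      split_ifs
      · field_simp
        rfl
      · ring
    rw [h2, abs_mul, abs_of_nonneg (Real.sqrt_nonneg _), mul_comm]
    refine mul_le_mul_of_nonneg_right (h1.trans (le_of_eq ?_)) (Real.sqrt_nonneg _)
    unfold bw
    push_cast
    rfl
  -- no clipping
  have hT0 : T.coeff 0 = 0 := by
    rw [hT, ← sum_TK, finsetSum_coeff]
    exact Finset.sum_eq_zero fun k _ => coeff_TK_zero k
  have hpred : ∀ n, pred T y n = clip (conv T e n) := by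
    intro n
    rw [pred_eq]
    unfold conv
    rw [Finset.sum_range_succ, Nat.sub_self, hT0, zero_mul, add_zero]
  have hconvT : ∀ n < Hw K, |conv T e n| ≤ 1 / 2 := by
    intro n hn
    rw [hT, ← sum_TK, conv_sum]
    refine (Finset.abs_sum_le_sum_abs _ _).trans ?_
    have h1 : ∀ k ∈ Finset.range (K + 1), |conv (TK k) e n| ≤
        50 / 512 * (Real.sqrt ((k : ℝ) + 1) / ((k : ℝ) + 1) ^ 2) := by
      intro k hk
      rw [Finset.mem_range] at hk
      have h2 := hker k (by omega) 0 (by positivity) n hn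
      have e1 : ker k 0 = TK k := by simp [ker]
      have e2 : nu2 k 0 = 16 / (2 ^ 22 * ((k : ℝ) + 1) ^ 4) := by simp [nu2]
      rw [e1, e2, sqrt_nu] at h2
      refine h2.trans (le_of_eq ?_)
      field_simp
      norm_num
    refine (Finset.sum_le_sum h1).trans ?_
    rw [← Finset.mul_sum]
    have h3 := sum_three_halves (K + 1)
    calc (50 / 512 : ℝ) * ∑ k ∈ Finset.range (K + 1), Real.sqrt ((k : ℝ) + 1) / ((k : ℝ) + 1) ^ 2
        ≤ 50 / 512 * 3 := mul_le_mul_of_nonneg_left h3 (by norm_num)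
      _ ≤ 1 / 2 := by norm_num
  have hyA : ∀ n < Hw K, y n = conv (AA (K + 1)) e n := by
    intro n hn
    have h1 : AA (K + 1) = 1 + T := by rw [hT]; ring
    rw [h1, conv_add, conv_one]
    have h2 := hpred n
    rw [clip_eq (hconvT n hn)] at h2
    simp only [he]
    rw [← h2]
    ring
  -- the integrated process
  intro d hd hdK a N haN
  set j := Nat.log 2 d with hj
  set S : ℕ → ℝ := fun t => conv (FF d (K + 1)) e t with hS
  have hk1K : k1 d + 1 ≤ K + 1 := by omega
  have hd2 : d < 2 ^ (K + 1) :=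
    (lt_two_pow_k1 d).trans_le (Nat.pow_le_pow_right (by norm_num) hk1K)
  have hE := Ed_pos d
  have hd0 : d ≠ 0 := by omega
  apply ap_bound y S d (Hw K) _ _ (by positivity) a N haN
  · intro t ht
    rw [hyA t ht, ← FF_mul hd hd2, conv_shift]
  · intro t ht
    simp only [hS]
    rw [FF_eq (lt_two_pow_k1 d) (K + 1) hk1K, conv_add, conv_sum]
    refine (abs_add_le _ _).trans ?_
    have h1 : |conv (FF d (k1 d + 1)) e t| ≤
        525 * (Real.sqrt (Ed d) * Real.sqrt ((j : ℝ) + 1)) := by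
      have h2 := hker (k1 d) (by omega) d (lt_two_pow_k1 d) t ht
      have e1 : ker (k1 d) d = FF d (k1 d + 1) := by simp [ker, hd0]
      have e2 : nu2 (k1 d) d = 2 * Ed d := by simp [nu2, hd0]
      rw [e1, e2] at h2
      refine h2.trans ?_
      have h3 : Real.sqrt ((k1 d : ℝ) + 1) ≤ 7 * Real.sqrt ((j : ℝ) + 1) := by
        rw [show (7 : ℝ) = Real.sqrt 49 by
          rw [show (49 : ℝ) = 7 ^ 2 by norm_num]; exact (Real.sqrt_sq (by norm_num)).symm,
          ← Real.sqrt_mul (by norm_num)]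
        apply Real.sqrt_le_sqrt
        unfold k1
        push_cast
        rw [← hj]
        have : (0 : ℝ) ≤ j := Nat.cast_nonneg j
        linarith
      have h4 : Real.sqrt (2 * Ed d) ≤ 3 / 2 * Real.sqrt (Ed d) := by
        rw [show (3 / 2 : ℝ) = Real.sqrt (9 / 4) by
          rw [show (9 / 4 : ℝ) = (3 / 2) ^ 2 by norm_num]; exact (Real.sqrt_sq (by norm_num)).symm,
          ← Real.sqrt_mul (by norm_num)]
        apply Real.sqrt_le_sqrt
        linarith
      calc 2 * (25 * Real.sqrt ((k1 d : ℝ) + 1) * Real.sqrt (2 * Ed d))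
          ≤ 2 * (25 * (7 * Real.sqrt ((j : ℝ) + 1)) * (3 / 2 * Real.sqrt (Ed d))) := by
            gcongr
        _ = 525 * (Real.sqrt (Ed d) * Real.sqrt ((j : ℝ) + 1)) := by ring
    have h2 : |∑ k ∈ Finset.Ico (k1 d + 1) (K + 1), conv (UK d k) e t| ≤
        Real.sqrt (Ed d) * Real.sqrt ((j : ℝ) + 1) := by
      refine (Finset.abs_sum_le_sum_abs _ _).trans ?_
      have h3 : ∀ k ∈ Finset.Ico (k1 d + 1) (K + 1), |conv (UK d k) e t| ≤
          50 / 512 * Real.sqrt (Ed d) * (Real.sqrt ((k : ℝ) + 1) / ((k : ℝ) + 1) ^ 2) := by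
        intro k hk
        rw [Finset.mem_Ico] at hk
        have hdk : d < 2 ^ (k + 1) := (lt_two_pow_k1 d).trans_le
          (Nat.pow_le_pow_right (by norm_num) (by omega))
        have h4 := hker k (by omega) d hdk t ht
        have e1 : ker k d = UK d k := by
          unfold ker
          rw [if_neg hd0, if_neg (by omega), if_pos (by omega)]
        have e2 : nu2 k d = 16 / (2 ^ 22 * ((k : ℝ) + 1) ^ 4) * Ed d := by
          unfold nu2
          rw [if_neg hd0, if_neg (by omega)]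
        rw [e1, e2, Real.sqrt_mul (by positivity), sqrt_nu] at h4
        refine h4.trans (le_of_eq ?_)
        field_simp
        norm_num
      refine (Finset.sum_le_sum h3).trans ?_
      rw [← Finset.mul_sum]
      have h5 : ∑ k ∈ Finset.Ico (k1 d + 1) (K + 1), Real.sqrt ((k : ℝ) + 1) / ((k : ℝ) + 1) ^ 2 ≤
          3 := by
        refine le_trans ?_ (sum_three_halves (K + 1))
        apply Finset.sum_le_sum_of_subset_of_nonneg
        · rw [Finset.range_eq_Ico]
          exact Finset.Ico_subset_Ico_left (Nat.zero_le _)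
        · intro k _ _
          positivity
      have h6 : (1 : ℝ) ≤ Real.sqrt ((j : ℝ) + 1) := by
        rw [← Real.sqrt_one]
        apply Real.sqrt_le_sqrt
        have : (0 : ℝ) ≤ j := Nat.cast_nonneg j
        rw [Real.sqrt_one]
        linarith
      calc 50 / 512 * Real.sqrt (Ed d) *
            ∑ k ∈ Finset.Ico (k1 d + 1) (K + 1), Real.sqrt ((k : ℝ) + 1) / ((k : ℝ) + 1) ^ 2
          ≤ 50 / 512 * Real.sqrt (Ed d) * 3 := mul_le_mul_of_nonneg_left h5 (by positivity)
        _ ≤ Real.sqrt (Ed d) * 1 := by nlinarith [Real.sqrt_nonneg (Ed d : ℝ)]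
        _ ≤ Real.sqrt (Ed d) * Real.sqrt ((j : ℝ) + 1) :=
          mul_le_mul_of_nonneg_left h6 (Real.sqrt_nonneg _)
    linarith

end Pool.Agent.H.MP_02f3ba_co.h16
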