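import Pool.Agent.H.MP_02f3ba_co.h16.Dft
import Pool.Agent.H.MP_02f3ba_co.h16.Moment
import Pool.Agent.H.MP_02f3ba_co.h16.Bessel

set_option autoImplicit false

namespace Pool.Agent.H.MP_02f3ba_co.h16

open Finset Polynomial

theorem trunc (f : ℕ → ℝ) (L d : ℕ) (n a : ℕ) :
    ∃ N, (∀ k < N, a + k * d < L) ∧
      ∑ i ∈ range n, (if a + i * d < L then f (a + i * d) else 0) =
        ∑ i ∈ range N, f (a + i * d) := by
  induction n with
  | zero => exact ⟨0, by omega, by simp⟩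
  | succ n ih =>
    by_cases h : a + n * d < L
    · have h1 : ∀ k < n + 1, a + k * d < L := by
        intro k hk
        have : k * d ≤ n * d := Nat.mul_le_mul_right d (by omega)
        omega
      refine ⟨n + 1, h1, Finset.sum_congr rfl fun i hi => ?_⟩
      rw [if_pos (h1 i (mem_range.1 hi))]
    · obtain ⟨N, hN, hs⟩ := ih
      refine ⟨N, hN, ?_⟩
      rw [Finset.sum_range_succ, if_neg h, add_zero, hs]

theorem ap_sum (f : ℕ → ℝ) (L : ℕ) {d : ℕ} (hd : 1 ≤ d) (m l : ℕ) :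
    ∃ a N, (∀ k < N, a + k * d < L) ∧
      ∑ k ∈ range l, (if k * d ≤ m ∧ m - k * d < L then f (m - k * d) else 0) =
        ∑ i ∈ range N, f (a + i * d) := by
  set l' := min l (m / d + 1) with hl'
  have h1 : ∑ k ∈ range l, (if k * d ≤ m ∧ m - k * d < L then f (m - k * d) else 0) =
      ∑ k ∈ range l', (if k * d ≤ m ∧ m - k * d < L then f (m - k * d) else 0) := by
    symm
    refine Finset.sum_subset ?_ ?_
    · intro k hk
      rw [mem_range] at hk ⊢
      omega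
    · intro k hk hk'
      rw [mem_range] at hk hk'
      rw [if_neg]
      rintro ⟨h2, _⟩
      have h3 : k ≤ m / d := (Nat.le_div_iff_mul_le (by omega)).2 h2
      omega
  rw [h1]
  rcases Nat.eq_zero_or_pos l' with h0 | h0
  · rw [h0]
    exact ⟨0, 0, by omega, by simp⟩
  · have hle : (l' - 1) * d ≤ m := by
      have h2 : l' - 1 ≤ m / d := by omega
      exact (Nat.mul_le_mul_right d h2).trans (Nat.div_mul_le_self m d)
    set a := m - (l' - 1) * d with ha
    obtain ⟨N, hN, hs⟩ := trunc f L d l' a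
    refine ⟨a, N, hN, ?_⟩
    rw [← hs, ← Finset.sum_range_reflect]
    refine Finset.sum_congr rfl fun i hi => ?_
    rw [mem_range] at hi
    have h2 : (l' - 1 - i) * d + i * d = (l' - 1) * d := by
      rw [← Nat.add_mul]
      congr 1
      omega
    have h3 : m - (l' - 1 - i) * d = a + i * d := by omega
    have h4 : (l' - 1 - i) * d ≤ m := by omega
    rw [h3]
    simp only [h4, true_and]

/-- The hypotheses on the words `w S`, `S` a subset of the shattered set `T`. -/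
structure Sh (h : ℕ → ℝ) (L : ℕ) (T : Finset ℕ) (w : Finset ℕ → ℕ → ℝ) : Prop where
  sub : T ⊆ range L
  one : ∀ S ∈ T.powerset, ∀ n < L, w S n ^ 2 = 1
  sgn : ∀ S ∈ T.powerset, ∀ t ∈ T, w S t = chi t S
  ap : ∀ S ∈ T.powerset, ∀ a d N, 1 ≤ d → (∀ k < N, a + k * d < L) →
    |∑ k ∈ range N, w S (a + k * d)| ≤ h d

/-- The correlation of position `n` with the sign of `t`. -/
noncomputable def cor (T : Finset ℕ) (w : Finset ℕ → ℕ → ℝ) (n t : ℕ) : ℝ :=
  (∑ S ∈ T.powerset, w S n * chi t S) / 2 ^ T.card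

noncomputable def V (L : ℕ) (T : Finset ℕ) (w : Finset ℕ → ℕ → ℝ) (t : ℕ) : ℂ[X] :=
  ∑ n ∈ range L, C ((cor T w n t : ℝ) : ℂ) * X ^ n

theorem coeff_V (L : ℕ) (T : Finset ℕ) (w : Finset ℕ → ℕ → ℝ) (t m : ℕ) :
    (V L T w t).coeff m = if m < L then ((cor T w m t : ℝ) : ℂ) else 0 := by
  unfold V
  rw [Polynomial.finsetSum_coeff]
  simp_rw [Polynomial.coeff_C_mul_X_pow]
  rw [Finset.sum_ite_eq]
  simp only [mem_range]

theorem natDegree_V {L : ℕ} (hL : 0 < L) (T : Finset ℕ) (w : Finset ℕ → ℕ → ℝ) (t : ℕ) :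
    (V L T w t).natDegree ≤ L - 1 := by
  unfold V
  refine Polynomial.natDegree_sum_le_of_forall_le _ _ fun n hn => ?_
  refine (Polynomial.natDegree_C_mul_X_pow_le _ _).trans ?_
  rw [mem_range] at hn
  omega

variable {h : ℕ → ℝ} {L : ℕ} {T : Finset ℕ} {w : Finset ℕ → ℕ → ℝ}

/-- Bessel for averages. -/
theorem bessel_avg (g : Finset ℕ → ℝ) {B : ℝ} (hB : ∀ S ∈ T.powerset, g S ^ 2 ≤ B) :
    ∑ t ∈ T, ((∑ S ∈ T.powerset, g S * chi t S) / 2 ^ T.card) ^ 2 ≤ B := by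
  have h1 := bessel T g
  have h2 : ∑ S ∈ T.powerset, g S ^ 2 ≤ 2 ^ T.card * B := by
    refine (Finset.sum_le_sum hB).trans ?_
    rw [Finset.sum_const, card_powerset, nsmul_eq_mul]
    push_cast
    exact le_rfl
  have hn : (0 : ℝ) < 2 ^ T.card := by positivity
  have h3 : ∀ t ∈ T, ((∑ S ∈ T.powerset, g S * chi t S) / 2 ^ T.card) ^ 2 =
      (∑ S ∈ T.powerset, g S * chi t S) ^ 2 / (2 ^ T.card) ^ 2 := fun t _ => div_pow _ _ _
  rw [Finset.sum_congr rfl h3, ← Finset.sum_div, div_le_iff₀ (by positivity)]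
  nlinarith

theorem Sh.cor_self (H : Sh h L T w) {t : ℕ} (ht : t ∈ T) : cor T w t t = 1 := by
  unfold cor
  have h1 : ∀ S ∈ T.powerset, w S t * chi t S = 1 := by
    intro S hS
    rw [H.sgn S hS t ht, chi_sq]
  rw [Finset.sum_congr rfl h1, Finset.sum_const, card_powerset, nsmul_eq_mul, mul_one]
  push_cast
  exact div_self (by positivity)

theorem Sh.sum_cor_sq (H : Sh h L T w) {n : ℕ} (hn : n < L) :
    ∑ t ∈ T, cor T w n t ^ 2 ≤ 1 := by
  unfold cor
  exact bessel_avg (fun S => w S n) fun S hS => (H.one S hS n hn).le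

theorem Sh.coeff_sq (H : Sh h L T w) {d : ℕ} (hd : 1 ≤ d) (l m : ℕ) :
    ∑ t ∈ T, ‖(V L T w t * dir d l).coeff m‖ ^ 2 ≤ h d ^ 2 := by
  set g : Finset ℕ → ℝ := fun S =>
    ∑ k ∈ range l, (if k * d ≤ m ∧ m - k * d < L then w S (m - k * d) else 0) with hg
  have h1 : ∀ t ∈ T, ‖(V L T w t * dir d l).coeff m‖ ^ 2 =
      ((∑ S ∈ T.powerset, g S * chi t S) / 2 ^ T.card) ^ 2 := by
    intro t _
    have h2 : (V L T w t * dir d l).coeff m =
        (((∑ S ∈ T.powerset, g S * chi t S) / 2 ^ T.card : ℝ) : ℂ) := by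
      rw [coeff_mul_dir]
      have h3 : (∑ S ∈ T.powerset, g S * chi t S) / 2 ^ T.card =
          ∑ k ∈ range l, (if k * d ≤ m ∧ m - k * d < L then cor T w (m - k * d) t else 0) := by
        simp only [hg]
        simp_rw [Finset.sum_mul]
        rw [Finset.sum_comm, Finset.sum_div]
        refine Finset.sum_congr rfl fun k _ => ?_
        split_ifs with hk
        · rfl
        · simp
      rw [h3, Complex.ofReal_sum]
      refine Finset.sum_congr rfl fun k _ => ?_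
      rw [coeff_V]
      by_cases hk : k * d ≤ m
      · by_cases hk' : m - k * d < L
        · simp [hk, hk']
        · simp [hk, hk']
      · simp [hk]
    rw [h2, Complex.norm_real, Real.norm_eq_abs, sq_abs]
  rw [Finset.sum_congr rfl h1]
  refine bessel_avg g fun S hS => ?_
  obtain ⟨a, N, hN, hs⟩ := ap_sum (w S) L hd m l
  simp only [hg]
  rw [hs]
  have h2 := H.ap S hS a d N hd hN
  rw [← sq_abs]
  have h3 : 0 ≤ |∑ i ∈ range N, w S (a + i * d)| := abs_nonneg _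
  nlinarith

theorem Sh.energy (H : Sh h L T w) (hL : 0 < L) {Q d l : ℕ} (hd : 1 ≤ d)
    (hQ : L + l * d ≤ Q) :
    ∑ t ∈ T, ∑ j ∈ range Q, ‖(V L T w t).eval (zt Q ^ j)‖ ^ 2 *
      ‖(dir d l).eval (zt Q ^ j)‖ ^ 2 ≤ Q * ((L + l * d) * h d ^ 2) := by
  have hQ0 : Q ≠ 0 := by omega
  have hdeg : ∀ t, (V L T w t * dir d l).natDegree ≤ L - 1 + l * d := fun t =>
    Polynomial.natDegree_mul_le.trans (Nat.add_le_add (natDegree_V hL T w t)
      (natDegree_dir_le d l))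
  have h1 : ∀ t ∈ T, ∑ j ∈ range Q, ‖(V L T w t).eval (zt Q ^ j)‖ ^ 2 *
      ‖(dir d l).eval (zt Q ^ j)‖ ^ 2 =
      Q * ∑ m ∈ range (L + l * d), ‖(V L T w t * dir d l).coeff m‖ ^ 2 := by
    intro t _
    have h2 := parseval hQ0 (V L T w t * dir d l) (by have := hdeg t; omega)
    have h3 : ∑ m ∈ range (L + l * d), ‖(V L T w t * dir d l).coeff m‖ ^ 2 =
        ∑ m ∈ range Q, ‖(V L T w t * dir d l).coeff m‖ ^ 2 := by
      refine Finset.sum_subset ?_ ?_
      · intro x hx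
        rw [mem_range] at hx ⊢
        omega
      · intro x _ hx
        rw [mem_range] at hx
        rw [Polynomial.coeff_eq_zero_of_natDegree_lt (by have := hdeg t; omega)]
        simp
    rw [h3, ← h2]
    refine Finset.sum_congr rfl fun j _ => ?_
    rw [Polynomial.eval_mul, norm_mul, mul_pow]
  rw [Finset.sum_congr rfl h1, ← Finset.mul_sum, Finset.sum_comm]
  have h2 : ∑ m ∈ range (L + l * d), ∑ t ∈ T, ‖(V L T w t * dir d l).coeff m‖ ^ 2 ≤
      (L + l * d) * h d ^ 2 := by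
    refine (Finset.sum_le_sum fun m _ => H.coeff_sq hd l m).trans ?_
    rw [Finset.sum_const, card_range, nsmul_eq_mul]
    push_cast
    exact le_rfl
  exact mul_le_mul_of_nonneg_left h2 (by positivity)

theorem Data.dir_ge (X : Data) {d j : ℕ} (hd : d ∈ X.D) (hj : j ∈ X.A d) :
    (X.l d : ℝ) / 2 ≤ ‖(dir d (X.l d)).eval (zt X.Q ^ j)‖ := by
  unfold Data.A arc ivl at hj
  rw [mem_biUnion] at hj
  obtain ⟨a, ha, hj⟩ := hj
  rw [mem_Ico] at hj
  refine norm_dir_ge X.Qpos.ne' (a : ℤ) ?_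
  obtain ⟨c, hc⟩ := X.d_dvd hd
  have h2 := X.two_le d hd
  have e1 : X.Q / d = c := by rw [hc]; exact Nat.mul_div_cancel_left c (by omega)
  rw [e1] at hj
  have h3 : |(j : ℤ) - a * c| ≤ X.r d := by
    have i1 : a * c ≤ j + X.r d := by omega
    have i2 : j < a * c + X.r d := hj.2
    rw [abs_le]
    constructor
    · have : ((a * c : ℕ) : ℤ) ≤ ((j + X.r d : ℕ) : ℤ) := by exact_mod_cast i1
      push_cast at this
      linarith
    · have : ((j : ℕ) : ℤ) < ((a * c + X.r d : ℕ) : ℤ) := by exact_mod_cast i2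
      push_cast at this
      linarith
  have h4 : (j : ℤ) * d - a * X.Q = d * ((j : ℤ) - a * c) := by
    rw [hc]
    push_cast
    ring
  rw [h4, abs_mul, Nat.abs_cast]
  have h5 : (6 : ℤ) * d * X.l d * X.r d = X.Q := by exact_mod_cast X.r_eq hd
  have h6 : (0 : ℤ) ≤ 6 * d * X.l d := by positivity
  calc 6 * (X.l d : ℤ) * (d * |(j : ℤ) - a * c|) = 6 * d * X.l d * |(j : ℤ) - a * c| := by ring
    _ ≤ 6 * d * X.l d * X.r d := mul_le_mul_of_nonneg_left h3 h6
    _ = X.Q := h5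

/-- The energy on the sets `A d`. -/
theorem Sh.energy_A (H : Sh h L T w) (hL : 0 < L) (X : Data) {M : ℝ} (hM : 0 < M)
    (hMl : ∀ d ∈ X.D, M * h d ^ 2 ≤ X.l d) (hlL : ∀ d ∈ X.D, X.l d * d ≤ L)
    (hQ : 2 * L ≤ X.Q) {d : ℕ} (hd : d ∈ X.D) :
    ∑ t ∈ T, ∑ j ∈ X.A d, ‖(V L T w t).eval (zt X.Q ^ j)‖ ^ 2 ≤
      8 * X.Q * L / M * (1 / X.l d) := by
  have hl : (0 : ℝ) < X.l d := by exact_mod_cast X.l_pos hd
  have h0 := H.energy hL (Q := X.Q) (d := d) (l := X.l d)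
    (by have := X.two_le d hd; omega) (by have := hlL d hd; omega)
  have h1 : (∑ t ∈ T, ∑ j ∈ X.A d, ‖(V L T w t).eval (zt X.Q ^ j)‖ ^ 2) * ((X.l d : ℝ) / 2) ^ 2 ≤
      ∑ t ∈ T, ∑ j ∈ range X.Q, ‖(V L T w t).eval (zt X.Q ^ j)‖ ^ 2 *
      ‖(dir d (X.l d)).eval (zt X.Q ^ j)‖ ^ 2 := by
    rw [Finset.sum_mul]
    refine Finset.sum_le_sum fun t _ => ?_
    rw [Finset.sum_mul]
    refine (Finset.sum_le_sum fun j hj => ?_).trans
      (Finset.sum_le_sum_of_subset_of_nonneg (X.A_subset hd) fun j _ _ => by positivity)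
    have h2 := X.dir_ge hd hj
    have h3 : ((X.l d : ℝ) / 2) ^ 2 ≤ ‖(dir d (X.l d)).eval (zt X.Q ^ j)‖ ^ 2 := by
      gcongr
    exact mul_le_mul_of_nonneg_left h3 (by positivity)
  have h2 : (X.Q : ℝ) * ((L + X.l d * d) * h d ^ 2) ≤ X.Q * (2 * L * (X.l d / M)) := by
    have h3 : h d ^ 2 ≤ X.l d / M := by
      rw [le_div_iff₀ hM]
      have := hMl d hd
      linarith
    have h4 : ((L : ℝ) + X.l d * d) ≤ 2 * L := by
      have : ((X.l d * d : ℕ) : ℝ) ≤ L := by exact_mod_cast hlL d hd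
      push_cast at this
      linarith
    gcongr
  have h3 := h1.trans (h0.trans h2)
  have h4 : 8 * X.Q * L / M * (1 / X.l d) = X.Q * (2 * L * (X.l d / M)) / ((X.l d : ℝ) / 2) ^ 2 := by
    field_simp
    ring
  rw [h4, le_div_iff₀ (by positivity)]
  exact h3

theorem Sh.energy_N (H : Sh h L T w) (hL : 0 < L) (X : Data) {M : ℝ} (hM : 0 < M)
    (hMl : ∀ d ∈ X.D, M * h d ^ 2 ≤ X.l d) (hlL : ∀ d ∈ X.D, X.l d * d ≤ L)
    (hQ : 2 * L ≤ X.Q) :
    ∑ t ∈ T, ∑ j ∈ range X.Q, X.N j * ‖(V L T w t).eval (zt X.Q ^ j)‖ ^ 2 ≤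
      8 * X.Q * L / M * X.sg := by
  have h1 : ∑ t ∈ T, ∑ j ∈ range X.Q, X.N j * ‖(V L T w t).eval (zt X.Q ^ j)‖ ^ 2 =
      ∑ t ∈ T, ∑ d ∈ X.D, ∑ j ∈ X.A d, ‖(V L T w t).eval (zt X.Q ^ j)‖ ^ 2 := by
    refine Finset.sum_congr rfl fun t _ => ?_
    unfold Data.N
    simp_rw [Finset.sum_mul]
    rw [Finset.sum_comm]
    refine Finset.sum_congr rfl fun d hd => ?_
    simp_rw [ite_mul, one_mul, zero_mul]
    rw [← Finset.sum_filter, Finset.filter_mem_eq_inter, Finset.inter_eq_right.2 (X.A_subset hd)]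
  rw [h1, Finset.sum_comm, Data.sg, Finset.mul_sum]
  exact Finset.sum_le_sum fun d hd => H.energy_A hL X hM hMl hlL hQ hd

theorem Data.N_nonneg (X : Data) (j : ℕ) : 0 ≤ X.N j := by
  unfold Data.N
  refine Finset.sum_nonneg fun d _ => ?_
  split_ifs <;> norm_num

/-- The size of a shattered set. -/
theorem Sh.card_le (H : Sh h L T w) (hL : 0 < L) (X : Data) {M m δ : ℝ} (hM : 0 < M)
    (hm : m = X.sg / 3) (hm0 : 0 < m)
    (hMl : ∀ d ∈ X.D, M * h d ^ 2 ≤ X.l d) (hlL : ∀ d ∈ X.D, X.l d * d ≤ L)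
    (hQ : 2 * L ≤ X.Q)
    (hF : (((range X.Q).filter (fun j => X.N j < m / 2)).card : ℝ) ≤ X.Q * δ) :
    (T.card : ℝ) ≤ (2 * δ + 96 / M) * L := by
  set F := (range X.Q).filter (fun j => X.N j < m / 2) with hFdef
  have hQ0 : X.Q ≠ 0 := X.Qpos.ne'
  have hQR : (0 : ℝ) < X.Q := by exact_mod_cast X.Qpos
  have hLR : (0 : ℝ) < L := by exact_mod_cast hL
  set s : ℕ → ℕ → ℝ := fun t j => ‖(V L T w t).eval (zt X.Q ^ j)‖ with hs
  have hdeg : ∀ t, (V L T w t).natDegree < X.Q := fun t => by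
    have := natDegree_V hL T w t
    omega
  -- one `t`
  have h1 : ∀ t ∈ T, (X.Q : ℝ) ^ 2 ≤ 2 * F.card * ∑ j ∈ range X.Q, s t j ^ 2 +
      4 * X.Q / m * ∑ j ∈ range X.Q, X.N j * s t j ^ 2 := by
    intro t ht
    have htL : t < L := mem_range.1 (H.sub ht)
    have h2 := inversion hQ0 (V L T w t) (hdeg t) (t := t) (by omega)
    rw [coeff_V, if_pos htL, H.cor_self ht] at h2
    have h3 : (X.Q : ℝ) ≤ ∑ j ∈ range X.Q, s t j := by
      have h4 : ‖∑ j ∈ range X.Q, (V L T w t).eval (zt X.Q ^ j) *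
          (starRingEnd ℂ) (zt X.Q ^ (t * j))‖ ≤ ∑ j ∈ range X.Q, s t j := by
        refine (norm_sum_le _ _).trans (Finset.sum_le_sum fun j _ => ?_)
        rw [norm_mul, RCLike.norm_conj, norm_zt_pow, mul_one]
      rw [h2] at h4
      simpa using h4
    have h5 : ∑ j ∈ range X.Q, s t j = ∑ j ∈ F, s t j +
        ∑ j ∈ (range X.Q).filter (fun j => ¬ X.N j < m / 2), s t j :=
      (Finset.sum_filter_add_sum_filter_not _ _ _).symm
    set A := ∑ j ∈ F, s t j with hA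
    set B := ∑ j ∈ (range X.Q).filter (fun j => ¬ X.N j < m / 2), s t j with hB
    have hA0 : 0 ≤ A := Finset.sum_nonneg fun j _ => norm_nonneg _
    have hB0 : 0 ≤ B := Finset.sum_nonneg fun j _ => norm_nonneg _
    have h6 : A ^ 2 ≤ F.card * ∑ j ∈ range X.Q, s t j ^ 2 := by
      refine (sq_sum_le_card_mul_sum_sq).trans ?_
      refine mul_le_mul_of_nonneg_left ?_ (by positivity)
      exact Finset.sum_le_sum_of_subset_of_nonneg (Finset.filter_subset _ _)
        fun j _ _ => sq_nonneg _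
    have h7 : B ^ 2 ≤ X.Q * (2 / m * ∑ j ∈ range X.Q, X.N j * s t j ^ 2) := by
      refine (sq_sum_le_card_mul_sum_sq).trans ?_
      have h8 : (((range X.Q).filter (fun j => ¬ X.N j < m / 2)).card : ℝ) ≤ X.Q := by
        have := Finset.card_filter_le (range X.Q) (fun j => ¬ X.N j < m / 2)
        rw [card_range] at this
        exact_mod_cast this
      have h9 : ∑ j ∈ (range X.Q).filter (fun j => ¬ X.N j < m / 2), s t j ^ 2 ≤
          2 / m * ∑ j ∈ range X.Q, X.N j * s t j ^ 2 := by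
        rw [Finset.mul_sum]
        refine (Finset.sum_le_sum fun j hj => ?_).trans
          (Finset.sum_le_sum_of_subset_of_nonneg (Finset.filter_subset _ _)
            fun j _ _ => by
              have := X.N_nonneg j
              positivity)
        have h10 := (mem_filter.1 hj).2
        push Not at h10
        have h11 : 1 ≤ 2 / m * X.N j := by
          rw [div_mul_eq_mul_div, le_div_iff₀ hm0]
          linarith
        have h12 : 0 ≤ s t j ^ 2 := sq_nonneg _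
        nlinarith
      have h10 : 0 ≤ ∑ j ∈ (range X.Q).filter (fun j => ¬ X.N j < m / 2), s t j ^ 2 :=
        Finset.sum_nonneg fun j _ => sq_nonneg _
      exact mul_le_mul h8 h9 h10 hQR.le
    have h8 : (X.Q : ℝ) ^ 2 ≤ 2 * A ^ 2 + 2 * B ^ 2 := by
      rw [h5] at h3
      nlinarith [sq_nonneg (A - B)]
    have h9 : 4 * X.Q / m * ∑ j ∈ range X.Q, X.N j * s t j ^ 2 =
        2 * (X.Q * (2 / m * ∑ j ∈ range X.Q, X.N j * s t j ^ 2)) := by
      ring
    rw [h9]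
    linarith
  have h2 := Finset.sum_le_sum h1
  rw [Finset.sum_const, nsmul_eq_mul, Finset.sum_add_distrib, ← Finset.mul_sum,
    ← Finset.mul_sum] at h2
  have h3 : ∑ t ∈ T, ∑ j ∈ range X.Q, s t j ^ 2 ≤ X.Q * L := by
    have h4 : ∀ t ∈ T, ∑ j ∈ range X.Q, s t j ^ 2 = X.Q * ∑ n ∈ range L, cor T w n t ^ 2 := by
      intro t _
      have h5 := parseval hQ0 (V L T w t) (hdeg t)
      simp only [hs]
      rw [h5]
      congr 1
      symm
      have h6 : ∀ n ∈ range L, cor T w n t ^ 2 = ‖(V L T w t).coeff n‖ ^ 2 := by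
        intro n hn
        rw [coeff_V, if_pos (mem_range.1 hn), Complex.norm_real, Real.norm_eq_abs, sq_abs]
      rw [Finset.sum_congr rfl h6]
      refine Finset.sum_subset ?_ ?_
      · intro x hx
        rw [mem_range] at hx ⊢
        omega
      · intro x _ hx
        rw [mem_range] at hx
        have h7 : (V L T w t).coeff x = 0 := by
          rw [coeff_V, if_neg hx]
        rw [h7, norm_zero]
        exact zero_pow two_ne_zero
    rw [Finset.sum_congr rfl h4, ← Finset.mul_sum, Finset.sum_comm]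
    refine mul_le_mul_of_nonneg_left ?_ hQR.le
    refine (Finset.sum_le_sum fun n hn => H.sum_cor_sq (mem_range.1 hn)).trans ?_
    rw [Finset.sum_const, card_range, nsmul_eq_mul, mul_one]
  have h4 := H.energy_N hL X hM hMl hlL hQ
  have h5 : X.sg = 3 * m := by linarith
  rw [h5] at h4
  have h6 : 2 * (F.card : ℝ) * ∑ t ∈ T, ∑ j ∈ range X.Q, s t j ^ 2 ≤
      2 * (X.Q * δ) * (X.Q * L) := by
    have h7 : (0 : ℝ) ≤ F.card := Nat.cast_nonneg _
    have h8 : 0 ≤ ∑ t ∈ T, ∑ j ∈ range X.Q, s t j ^ 2 :=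
      Finset.sum_nonneg fun t _ => Finset.sum_nonneg fun j _ => sq_nonneg _
    have h9 : (0 : ℝ) ≤ X.Q * δ := h7.trans hF
    calc 2 * (F.card : ℝ) * ∑ t ∈ T, ∑ j ∈ range X.Q, s t j ^ 2
        ≤ 2 * (X.Q * δ) * ∑ t ∈ T, ∑ j ∈ range X.Q, s t j ^ 2 := by gcongr
      _ ≤ 2 * (X.Q * δ) * (X.Q * L) := by gcongr
  have h7 : 4 * (X.Q : ℝ) / m * ∑ t ∈ T, ∑ j ∈ range X.Q, X.N j * s t j ^ 2 ≤
      4 * (X.Q : ℝ) / m * (8 * X.Q * L / M * (3 * m)) := by
    refine mul_le_mul_of_nonneg_left h4 (by positivity)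
  have h8 : 4 * (X.Q : ℝ) / m * (8 * X.Q * L / M * (3 * m)) = (96 / M) * L * (X.Q : ℝ) ^ 2 := by
    field_simp
    ring
  rw [h8] at h7
  have h9 : (T.card : ℝ) * (X.Q : ℝ) ^ 2 ≤ ((2 * δ + 96 / M) * L) * (X.Q : ℝ) ^ 2 := by
    have : ((2 * δ + 96 / M) * L) * (X.Q : ℝ) ^ 2 =
        2 * (X.Q * δ) * (X.Q * L) + (96 / M) * L * (X.Q : ℝ) ^ 2 := by ring
    rw [this]
    linarith
  exact le_of_mul_le_mul_right h9 (by positivity)

end Pool.Agent.H.MP_02f3ba_co.h16
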